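import Pool.Agent.Helper42.Miek.Enc

set_option autoImplicit false

namespace Pool.Agent.Helper42.Miek

open Finset

/-- all translates of encodings of valid configurations -/
def GG (k : ℤ) : Set (ℤ → ℤ → Lab) :=
  {c | ∃ t, Val t ∧ ∃ x0 y0 : ℤ, ∀ x y, c x y = enc k t (x + x0) (y + y0)}

theorem GG_shift {k : ℤ} {c : ℤ → ℤ → Lab} (hc : c ∈ GG k) (a b : ℤ) :
    (fun x y => c (x + a) (y + b)) ∈ GG k := by
  obtain ⟨t, ht, x0, y0, h⟩ := hc
  refine ⟨t, ht, a + x0, b + y0, ?_⟩
  intro x y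
  simp only [h]
  rw [add_assoc, add_assoc]

theorem Val.shift2 {t : ℤ → ℤ → W} (ht : Val t) (i j : ℤ) : Val (fun a b => t (a + i) (b + j)) := by
  intro a b
  have := ht (a + i) (b + j)
  have e1 : a + 1 + i = a + i + 1 := by ring
  have e2 : b + 1 + j = b + j + 1 := by ring
  simp only [e1, e2]
  exact this

theorem GG_mark {k : ℤ} (hk : 0 < k) {c : ℤ → ℤ → Lab} (hc : c ∈ GG k)
    (h0 : c 0 0 = some none) : ∃ t, Val t ∧ ∀ x y, c x y = enc k t x y := by
  obtain ⟨t, ht, x0, y0, h⟩ := hc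
  rw [h, zero_add, zero_add, enc_mark hk] at h0
  obtain ⟨⟨i, rfl⟩, ⟨j, rfl⟩⟩ := h0
  refine ⟨_, ht.shift2 i j, ?_⟩
  intro x y
  rw [h, enc_shift hk]

section

variable {V : Type} [AddCommGroup V] (io : ℤ × ℤ →+ V) (k : ℤ)

/-- the local structure -/
def Loc (ρ : ℤ) (P : Set V) (lab : V → Lab) : Prop :=
  ∀ p ∈ P, ∃ c ∈ GG k, c 0 0 = lab p ∧
    ∀ a b : ℤ, |a| ≤ ρ → |b| ≤ ρ → p + io (a, b) ∈ P → lab (p + io (a, b)) = c a b

open scoped Classical in
noncomputable def Near (ρ : ℤ) (S : Finset V) : Finset V :=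
  S.filter (fun p => ∃ a b : ℤ, |a| ≤ ρ ∧ |b| ≤ ρ ∧ p + io (a, b) ∉ S)

open scoped Classical in
noncomputable def Bd (S : Finset V) (e : V) : Finset V := S.filter (fun p => p + e ∉ S)

theorem mem_Near {ρ : ℤ} {S : Finset V} {p : V} : p ∈ Near io ρ S ↔
    p ∈ S ∧ ∃ a b : ℤ, |a| ≤ ρ ∧ |b| ≤ ρ ∧ p + io (a, b) ∉ S := by
  classical
  unfold Near
  rw [mem_filter]

theorem mem_Bd {S : Finset V} {e p : V} : p ∈ Bd S e ↔ p ∈ S ∧ p + e ∉ S := by
  classical
  unfold Bd
  rw [mem_filter]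

open scoped Classical in
theorem Bd_neg (S : Finset V) (e : V) : (Bd S (-e)).card = (Bd S e).card := by
  have h1 : (Bd S e).card + (S.filter (fun p => p + e ∈ S)).card = S.card := by
    unfold Bd
    rw [add_comm]
    have := Finset.card_filter_add_card_filter_not (s := S) (fun p => p + e ∈ S)
    convert this using 3
  have h2 : (Bd S (-e)).card + (S.filter (fun p => p + -e ∈ S)).card = S.card := by
    unfold Bd
    rw [add_comm]
    have := Finset.card_filter_add_card_filter_not (s := S) (fun p => p + -e ∈ S)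
    convert this using 3
  have h3 : (S.filter (fun p => p + e ∈ S)).card = (S.filter (fun p => p + -e ∈ S)).card := by
    apply Finset.card_bij (fun p _ => p + e)
    · intro p hp
      rw [mem_filter] at hp ⊢
      exact ⟨hp.2, by rw [add_neg_cancel_right]; exact hp.1⟩
    · intro p _ q _ h
      exact add_right_cancel h
    · intro q hq
      rw [mem_filter] at hq
      refine ⟨q + -e, ?_, by rw [neg_add_cancel_right]⟩
      rw [mem_filter, neg_add_cancel_right]
      exact ⟨hq.2, hq.1⟩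
  omega

theorem exists_step (S : Finset V) (e : V) (n : ℕ) :
    ∀ p ∈ S, p + n • e ∉ S → ∃ i : ℕ, i ≤ n ∧ p + i • e ∈ Bd S e := by
  induction n with
  | zero =>
    intro p hp h
    simp at h
    exact absurd hp h
  | succ n ih =>
    intro p hp h
    by_cases h1 : p + n • e ∈ S
    · refine ⟨n, by omega, ?_⟩
      rw [mem_Bd]
      refine ⟨h1, ?_⟩
      rw [add_assoc, ← succ_nsmul]
      exact h
    · obtain ⟨i, hi, h2⟩ := ih p hp h1
      exact ⟨i, by omega, h2⟩

theorem exists_step_int (S : Finset V) (u : ℤ × ℤ) (n ρ : ℤ) (hn : |n| ≤ ρ) (p : V) (hp : p ∈ S)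
    (h : p + n • io u ∉ S) :
    ∃ i : ℤ, |i| ≤ ρ ∧ (p + i • io u ∈ Bd S (io u) ∨ p + i • io u ∈ Bd S (-io u)) := by
  rcases le_total 0 n with h0 | h0
  · obtain ⟨m, rfl⟩ := Int.eq_ofNat_of_zero_le h0
    rw [natCast_zsmul] at h
    obtain ⟨i, hi, h2⟩ := exists_step S (io u) m p hp h
    refine ⟨i, ?_, Or.inl (by rw [natCast_zsmul]; exact h2)⟩
    rw [abs_of_nonneg (by positivity)] at hn ⊢
    omega
  · obtain ⟨m, hm⟩ := Int.eq_ofNat_of_zero_le (show 0 ≤ -n by omega)
    have hn' : n = -(m : ℤ) := by omega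
    subst hn'
    rw [neg_smul, ← smul_neg, natCast_zsmul] at h
    obtain ⟨i, hi, h2⟩ := exists_step S (-io u) m p hp h
    refine ⟨-i, ?_, Or.inr (by rw [neg_smul, ← smul_neg, natCast_zsmul]; exact h2)⟩
    rw [abs_neg, abs_of_nonneg (by positivity)] at hn ⊢
    omega

open scoped Classical in
theorem near_bound (ρ : ℤ) (hρ : 0 ≤ ρ) (S : Finset V) :
    ((Near io ρ S).card : ℤ) ≤
      (2 * ρ + 1) ^ 2 * (2 * ((Bd S (io (1, 0))).card + (Bd S (io (0, 1))).card)) := by
  set U : Finset V := (Bd S (io (1, 0)) ∪ Bd S (-io (1, 0))) ∪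
    (Bd S (io (0, 1)) ∪ Bd S (-io (0, 1))) with hU
  have hsub : Near io ρ S ⊆ ((Finset.Icc (-ρ) ρ ×ˢ Finset.Icc (-ρ) ρ) ×ˢ U).image
      (fun x => x.2 - io (x.1.1, x.1.2)) := by
    intro p hp
    rw [mem_Near] at hp
    obtain ⟨hpS, a, b, ha, hb, hnot⟩ := hp
    rw [mem_image]
    have e1 : ∀ i : ℤ, io (i, 0) = i • io (1, 0) := by
      intro i
      rw [← map_zsmul]
      congr 1
      simp
    have e2 : ∀ i : ℤ, io (0, i) = i • io (0, 1) := by
      intro i
      rw [← map_zsmul]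
      congr 1
      simp
    by_cases h1 : p + a • io (1, 0) ∈ S
    · have h2 : (p + a • io (1, 0)) + b • io (0, 1) ∉ S := by
        rw [← e1, ← e2, add_assoc, ← map_add]
        simpa using hnot
      obtain ⟨i, hi, h3⟩ := exists_step_int io S (0, 1) b ρ hb _ h1 h2
      refine ⟨((a, i), p + a • io (1, 0) + i • io (0, 1)), ?_, ?_⟩
      · rw [mem_product, mem_product, mem_Icc, mem_Icc]
        rw [abs_le] at ha hi
        refine ⟨⟨⟨ha.1, ha.2⟩, ⟨hi.1, hi.2⟩⟩, ?_⟩
        rw [hU, mem_union, mem_union, mem_union]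
        exact Or.inr h3
      · simp only
        rw [← e1, ← e2, add_assoc, ← map_add]
        simp
    · obtain ⟨i, hi, h3⟩ := exists_step_int io S (1, 0) a ρ ha _ hpS h1
      refine ⟨((i, 0), p + i • io (1, 0)), ?_, ?_⟩
      · rw [mem_product, mem_product, mem_Icc, mem_Icc]
        rw [abs_le] at hi
        refine ⟨⟨⟨hi.1, hi.2⟩, ⟨by simpa using hρ, hρ⟩⟩, ?_⟩
        rw [hU, mem_union, mem_union, mem_union]
        exact Or.inl h3
      · simp only
        rw [← e1]
        simp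
  have hcard := card_le_card hsub
  have h2 := hcard.trans card_image_le
  rw [card_product, card_product, Int.card_Icc] at h2
  have h3 : U.card ≤ 2 * ((Bd S (io (1, 0))).card + (Bd S (io (0, 1))).card) := by
    have c1 := card_union_le (Bd S (io (1, 0)) ∪ Bd S (-io (1, 0)))
      (Bd S (io (0, 1)) ∪ Bd S (-io (0, 1)))
    have c2 := card_union_le (Bd S (io (1, 0))) (Bd S (-io (1, 0)))
    have c3 := card_union_le (Bd S (io (0, 1))) (Bd S (-io (0, 1)))
    rw [Bd_neg] at c2 c3
    rw [← hU] at c1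
    omega
  have h4 : ((Near io ρ S).card : ℤ) ≤
      (((ρ + 1 - -ρ).toNat * (ρ + 1 - -ρ).toNat * U.card : ℕ) : ℤ) := by exact_mod_cast h2
  push_cast at h4
  rw [Int.toNat_of_nonneg (by omega)] at h4
  have h5 : (U.card : ℤ) ≤ 2 * ((Bd S (io (1, 0))).card + (Bd S (io (0, 1))).card) := by
    exact_mod_cast h3
  calc ((Near io ρ S).card : ℤ) ≤ (ρ + 1 - -ρ) * (ρ + 1 - -ρ) * U.card := h4
    _ = (2 * ρ + 1) ^ 2 * U.card := by ring
    _ ≤ _ := mul_le_mul_of_nonneg_left h5 (by positivity)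

variable {io k}
variable (hk : 0 < k)

/-- the block -/
noncomputable def Blk (k : ℤ) : Finset (ℤ × ℤ) := Finset.Ico 0 (k * MM) ×ˢ Finset.Ico 0 k

theorem mem_Blk {k : ℤ} {u : ℤ × ℤ} : u ∈ Blk k ↔ (0 ≤ u.1 ∧ u.1 < k * MM) ∧ (0 ≤ u.2 ∧ u.2 < k) := by
  unfold Blk
  rw [mem_product, mem_Ico, mem_Ico]

theorem Blk_card {k : ℤ} (hk : 0 < k) : ((Blk k).card : ℤ) = k * MM * k := by
  unfold Blk
  rw [card_product, Int.card_Ico, Int.card_Ico]
  have := MM_pos
  push_cast
  rw [Int.toNat_of_nonneg (by simp; positivity), Int.toNat_of_nonneg (by simp; positivity)]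
  ring

open scoped Classical in
noncomputable def Full (io : ℤ × ℤ →+ V) (k : ℤ) (lab : V → Lab) (S : Finset V) : Finset V :=
  S.filter (fun μ => lab μ = some none ∧ ∀ u ∈ Blk k, μ + io u ∈ S)

open scoped Classical in
noncomputable def Cov (io : ℤ × ℤ →+ V) (k : ℤ) (lab : V → Lab) (S : Finset V) : Finset V :=
  (Full io k lab S ×ˢ Blk k).image (fun x => x.1 + io x.2)

theorem mem_Full {io : ℤ × ℤ →+ V} {k : ℤ} {lab : V → Lab} {S : Finset V} {μ : V} :
    μ ∈ Full io k lab S ↔ μ ∈ S ∧ lab μ = some none ∧ ∀ u ∈ Blk k, μ + io u ∈ S := by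
  classical
  unfold Full
  rw [mem_filter]

theorem mem_Cov {io : ℤ × ℤ →+ V} {k : ℤ} {lab : V → Lab} {S : Finset V} {p : V} :
    p ∈ Cov io k lab S ↔ ∃ μ ∈ Full io k lab S, ∃ u ∈ Blk k, μ + io u = p := by
  classical
  unfold Cov
  rw [mem_image]
  constructor
  · rintro ⟨⟨μ, u⟩, h1, h2⟩
    rw [mem_product] at h1
    exact ⟨μ, h1.1, u, h1.2, h2⟩
  · rintro ⟨μ, h1, u, h2, h3⟩
    exact ⟨(μ, u), by rw [mem_product]; exact ⟨h1, h2⟩, h3⟩

theorem one_le_MM : 1 ≤ MM := by have := MM_pos; omega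

include hk in
theorem k_le : k ≤ k * MM := by
  have := one_le_MM
  nlinarith

section
variable {ρ : ℤ} {P : Set V} {lab : V → Lab} (hloc : Loc io k ρ P lab) (hρ : k * MM ≤ ρ)
  {S : Finset V} (hS : ∀ p ∈ S, p ∈ P)

include hk hloc hS

theorem full_view {μ : V} (hμ : μ ∈ Full io k lab S) : ∃ t, Val t ∧
    ∀ a b : ℤ, |a| ≤ ρ → |b| ≤ ρ → μ + io (a, b) ∈ P → lab (μ + io (a, b)) = enc k t a b := by
  rw [mem_Full] at hμ
  obtain ⟨c, hc, h0, h1⟩ := hloc μ (hS _ hμ.1)
  rw [hμ.2.1] at h0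
  obtain ⟨t, ht, h2⟩ := GG_mark hk hc h0
  refine ⟨t, ht, ?_⟩
  intro a b ha hb hab
  rw [h1 a b ha hb hab, h2]

include hρ

theorem full_inj {μ μ' : V} (hμ : μ ∈ Full io k lab S) (hμ' : μ' ∈ Full io k lab S)
    {u u' : ℤ × ℤ} (hu : u ∈ Blk k) (hu' : u' ∈ Blk k) (h : μ + io u = μ' + io u') :
    μ = μ' ∧ u = u' := by
  obtain ⟨t, ht, h1⟩ := full_view hk hloc hS hμ
  have hkM := k_le hk
  have e : μ' = μ + io (u.1 - u'.1, u.2 - u'.2) := by
    have : ((u.1 - u'.1, u.2 - u'.2) : ℤ × ℤ) = u - u' := rfl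
    rw [this, map_sub, ← add_sub_assoc, h]
    abel
  rw [mem_Blk] at hu hu'
  have h2 : lab μ' = some none := by
    rw [mem_Full] at hμ'
    exact hμ'.2.1
  have h3 : μ' ∈ P := by
    rw [mem_Full] at hμ'
    exact hS _ hμ'.1
  have h4 := h1 (u.1 - u'.1) (u.2 - u'.2) (by rw [abs_le]; constructor <;> omega)
    (by rw [abs_le]; constructor <;> omega) (by rw [← e]; exact h3)
  rw [← e, h2] at h4
  have h5 := (enc_mark hk t _ _).1 h4.symm
  obtain ⟨h6, h7⟩ := h5
  have h8 : u.1 - u'.1 = 0 := by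
    apply Int.eq_zero_of_abs_lt_dvd h6
    rw [abs_lt]; constructor <;> omega
  have h9 : u.2 - u'.2 = 0 := by
    apply Int.eq_zero_of_abs_lt_dvd h7
    rw [abs_lt]; constructor <;> omega
  rw [h8, h9] at e
  have h10 : io (0, 0) = 0 := map_zero io
  rw [h10, add_zero] at e
  refine ⟨e.symm, ?_⟩
  exact Prod.ext (by omega) (by omega)

theorem Cov_card : ((Cov io k lab S).card : ℤ) = (Full io k lab S).card * (k * MM * k) := by
  classical
  unfold Cov
  rw [card_image_of_injOn, card_product]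
  · push_cast
    rw [Blk_card hk]
  · intro x hx y hy hxy
    rw [mem_coe, mem_product] at hx hy
    have := full_inj hk hloc hρ hS hx.1 hy.1 hx.2 hy.2 hxy
    exact Prod.ext this.1 this.2

omit hk hloc hS hρ in
theorem Cov_subset : Cov io k lab S ⊆ S := by
  intro p hp
  rw [mem_Cov] at hp
  obtain ⟨μ, h1, u, h2, rfl⟩ := hp
  rw [mem_Full] at h1
  exact h1.2.2 u h2

theorem not_cov_near {p : V} (hp : p ∈ S) (hc : p ∉ Cov io k lab S) : p ∈ Near io ρ S := by
  rw [mem_Near]
  refine ⟨hp, ?_⟩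
  by_contra hcon
  push Not at hcon
  apply hc
  have hkM := k_le hk
  have hKpos : 0 < k * MM := by have := MM_pos; positivity
  obtain ⟨c, ⟨t, ht, x0, y0, h1⟩, h0, h2⟩ := hloc p (hS p hp)
  have m1 := Int.emod_nonneg x0 hKpos.ne'
  have m2 := Int.emod_lt_of_pos x0 hKpos
  have m3 := Int.emod_nonneg y0 hk.ne'
  have m4 := Int.emod_lt_of_pos y0 hk
  set a0 := -(x0 % (k * MM)) with ha0
  set b0 := -(y0 % k) with hb0
  have hμS : p + io (a0, b0) ∈ S := hcon a0 b0 (by rw [abs_le]; constructor <;> omega)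
    (by rw [abs_le]; constructor <;> omega)
  have hmark : lab (p + io (a0, b0)) = some none := by
    rw [h2 a0 b0 (by rw [abs_le]; constructor <;> omega) (by rw [abs_le]; constructor <;> omega)
      (hS _ hμS), h1, enc_mark hk]
    constructor
    · rw [ha0, neg_add_eq_sub]
      exact Int.dvd_self_sub_emod
    · rw [hb0, neg_add_eq_sub]
      exact Int.dvd_self_sub_emod
  rw [mem_Cov]
  refine ⟨p + io (a0, b0), ?_, (-a0, -b0), ?_, ?_⟩
  · rw [mem_Full]
    refine ⟨hμS, hmark, ?_⟩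
    intro u hu
    rw [mem_Blk] at hu
    have e : p + io (a0, b0) + io u = p + io (a0 + u.1, b0 + u.2) := by
      rw [add_assoc, ← map_add]
      rfl
    rw [e]
    exact hcon _ _ (by rw [abs_le]; constructor <;> omega) (by rw [abs_le]; constructor <;> omega)
  · rw [mem_Blk]
    constructor <;> constructor <;> simp only <;> omega
  · rw [add_assoc, ← map_add]
    have e : ((a0, b0) : ℤ × ℤ) + (-a0, -b0) = 0 := by simp
    rw [e, map_zero, add_zero]

/-- number of tiles versus number of full blocks -/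
theorem card_sub_cov : ((S.card : ℤ) - (Cov io k lab S).card) ≤ (Near io ρ S).card := by
  classical
  have h1 : (S \ Cov io k lab S).card ≤ (Near io ρ S).card := by
    apply card_le_card
    intro p hp
    rw [mem_sdiff] at hp
    exact not_cov_near hk hloc hρ hS hp.1 hp.2
  rw [card_sdiff_of_subset Cov_subset] at h1
  have h2 := card_le_card (Cov_subset (io := io) (k := k) (lab := lab) (S := S))
  omega

open scoped Classical in
theorem label_card (o : Option W) :
    (Full io k lab S).card ≤ (S.filter (fun p => lab p = some o)).card ∧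
    (S.filter (fun p => lab p = some o)).card ≤ (Full io k lab S).card + (Near io ρ S).card := by
  have hkM := k_le hk
  -- the tile with label `o` in the block of `μ`
  have hex : ∀ μ ∈ Full io k lab S, ∃ x : ℤ, (0 ≤ x ∧ x < k * MM) ∧
      lab (μ + io (x, 0)) = some o ∧ ∀ u ∈ Blk k, lab (μ + io u) = some o → u = (x, 0) := by
    intro μ hμ
    obtain ⟨t, ht, h1⟩ := full_view hk hloc hS hμ
    have hμ2 := hμ
    rw [mem_Full] at hμ2
    obtain ⟨x, ⟨hx1, hx2, hx3⟩, hx4⟩ := enc_block hk t o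
    refine ⟨x, ⟨hx1, hx2⟩, ?_, ?_⟩
    · rw [h1 x 0 (by rw [abs_le]; constructor <;> omega) (by rw [abs_le]; constructor <;> omega)
        (hS _ (hμ2.2.2 (x, 0) (by rw [mem_Blk]; simp only; omega))), hx3]
    · intro u hu hlab
      have hu' := hu
      rw [mem_Blk] at hu'
      have h5 := h1 u.1 u.2 (by rw [abs_le]; constructor <;> omega)
        (by rw [abs_le]; constructor <;> omega) (hS _ (hμ2.2.2 u hu))
      rw [hlab] at h5
      have h6 := hx4 u.1 u.2 hu'.1.1 hu'.1.2 hu'.2.1 hu'.2.2 h5.symm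
      exact Prod.ext h6.1 h6.2
  choose! X hX1 hX2 hX3 using hex
  constructor
  · apply card_le_card_of_injOn (fun μ => μ + io (X μ, 0))
    · intro μ hμ
      rw [mem_coe] at hμ
      have hμ2 := hμ
      rw [mem_Full] at hμ2
      rw [mem_coe, mem_filter]
      refine ⟨hμ2.2.2 _ ?_, hX2 μ hμ⟩
      rw [mem_Blk]
      have := hX1 μ hμ
      simp only
      omega
    · intro μ hμ μ' hμ' h
      rw [mem_coe] at hμ hμ'
      have h1 := hX1 μ hμ
      have h2 := hX1 μ' hμ'
      exact (full_inj hk hloc hρ hS hμ hμ' (by rw [mem_Blk]; simp only; omega)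
        (by rw [mem_Blk]; simp only; omega) h).1
  · have hsub : S.filter (fun p => lab p = some o) ⊆
        (Full io k lab S).image (fun μ => μ + io (X μ, 0)) ∪ Near io ρ S := by
      intro p hp
      rw [mem_filter] at hp
      rw [mem_union]
      by_cases hc : p ∈ Cov io k lab S
      · left
        rw [mem_Cov] at hc
        obtain ⟨μ, h1, u, h2, rfl⟩ := hc
        rw [mem_image]
        refine ⟨μ, h1, ?_⟩
        have := hX3 μ h1 u h2 hp.2
        rw [this]
      · right
        exact not_cov_near hk hloc hρ hS hp.1 hc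
    calc _ ≤ _ := card_le_card hsub
      _ ≤ _ := card_union_le _ _
      _ ≤ _ := Nat.add_le_add_right card_image_le _

open scoped Classical in
/-- discrepancy bound for nonblank labels -/
theorem label_discr (o : Option W) :
    |((S.filter (fun p => lab p = some o)).card : ℝ) - S.card / ((k : ℝ) * MM * k)| ≤
      (Near io ρ S).card := by
  obtain ⟨h1, h2⟩ := label_card hk hloc hρ hS o
  have h3 := Cov_card hk hloc hρ hS
  have h4 := card_sub_cov hk hloc hρ hS
  have h5 := card_le_card (Cov_subset (io := io) (k := k) (lab := lab) (S := S))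
  have hD : (1 : ℤ) ≤ k * MM * k := by
    have := one_le_MM
    have h6 : 1 ≤ k * MM := by nlinarith
    nlinarith
  have hD' : (1 : ℝ) ≤ (k : ℝ) * MM * k := by exact_mod_cast hD
  set D : ℝ := (k : ℝ) * MM * k with hDdef
  have h3' : ((Cov io k lab S).card : ℝ) = (Full io k lab S).card * D := by
    rw [hDdef]; exact_mod_cast h3
  have h4' : (S.card : ℝ) - (Cov io k lab S).card ≤ (Near io ρ S).card := by exact_mod_cast h4
  have h5' : ((Cov io k lab S).card : ℝ) ≤ S.card := by exact_mod_cast h5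
  have h1' : ((Full io k lab S).card : ℝ) ≤ (S.filter (fun p => lab p = some o)).card := by
    exact_mod_cast h1
  have h2' : ((S.filter (fun p => lab p = some o)).card : ℝ) ≤
      (Full io k lab S).card + (Near io ρ S).card := by exact_mod_cast h2
  have hN : (0 : ℝ) ≤ (Near io ρ S).card := Nat.cast_nonneg _
  have hD0 : 0 < D := by linarith
  rw [h3'] at h4' h5'
  have h6 : ((Full io k lab S).card : ℝ) ≤ S.card / D := by
    rw [le_div_iff₀ hD0]; exact h5'
  have h7 : (S.card : ℝ) / D ≤ (Full io k lab S).card + (Near io ρ S).card := by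
    rw [div_le_iff₀ hD0]
    have h8 : ((Near io ρ S).card : ℝ) * 1 ≤ (Near io ρ S).card * D :=
      mul_le_mul_of_nonneg_left hD' hN
    have h9 : (((Full io k lab S).card : ℝ) + (Near io ρ S).card) * D =
      (Full io k lab S).card * D + (Near io ρ S).card * D := by ring
    rw [h9]
    linarith
  rw [abs_le]
  constructor <;> linarith

end

end

end Pool.Agent.Helper42.Miek
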