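import Mathlib

set_option autoImplicit false

open MeasureTheory

namespace Pool.Agent.Helper42.Miek

/-- The space `ℝ^d`. -/
abbrev Sp (d : ℕ) : Type := EuclideanSpace ℝ (Fin d)

/-- A prototile set in `ℝ^d`: finitely many tile types (a type carries its label), each with a
shape which is a nonempty compact set, equal to the closure of its interior, whose boundary has
finite `(d-1)`-dimensional Hausdorff measure. Two types may have the same shape; they then differ
only by their label. -/
structure ProtoSet (d : ℕ) where
  /-- the tile types -/
  ι : Type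
  /-- there are finitely many of them -/
  finite : Finite ι
  /-- the shape of each type -/
  shape : ι → Set (Sp d)
  nonempty : ∀ i, (shape i).Nonempty
  compact : ∀ i, IsCompact (shape i)
  regular : ∀ i, closure (interior (shape i)) = shape i
  boundary : ∀ i, Measure.hausdorffMeasure ((d : ℝ) - 1) (frontier (shape i)) < ⊤

namespace ProtoSet

/-- The volume of a region. -/
noncomputable def vol {d : ℕ} (R : Set (Sp d)) : ℝ := (volume R).toReal

/-- The `(d-1)`-dimensional Hausdorff measure of the boundary of a region. -/
noncomputable def perimeter {d : ℕ} (R : Set (Sp d)) : ℝ :=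
  (Measure.hausdorffMeasure ((d : ℝ) - 1) (frontier R)).toReal

variable {d : ℕ} (F : ProtoSet d)

/-- A tile is a translate of a prototile: a type together with a translation vector. -/
abbrev Tile : Type := F.ι × Sp d

/-- The set of points covered by a tile. -/
def body (t : F.Tile) : Set (Sp d) := (fun x => t.2 + x) '' F.shape t.1

/-- The tiles of `P` have pairwise disjoint interiors. -/
def NonOverlapping (P : Set F.Tile) : Prop :=
  ∀ s ∈ P, ∀ t ∈ P, s ≠ t → Disjoint (interior (F.body s)) (interior (F.body t))

/-- A patch is a finite set of tiles with pairwise disjoint interiors. -/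
def IsPatch (P : Set F.Tile) : Prop := P.Finite ∧ F.NonOverlapping P

/-- A tiling is a set of tiles with pairwise disjoint interiors which covers the space. -/
def IsTiling (P : Set F.Tile) : Prop := F.NonOverlapping P ∧ ⋃ t ∈ P, F.body t = Set.univ

/-- The translate `P + v` of a set of tiles. -/
def translate (v : Sp d) (P : Set F.Tile) : Set F.Tile := (fun t => (t.1, t.2 + v)) '' P

/-- The region covered by a set of tiles. -/
def region (S : Set F.Tile) : Set (Sp d) := ⋃ t ∈ S, F.body t

/-- `N_i(R)`: the number of tiles of `P` of type `i` contained in `R`. -/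
noncomputable def count (P : Set F.Tile) (R : Set (Sp d)) (i : F.ι) : ℕ :=
  {t | t ∈ P ∧ F.body t ⊆ R ∧ t.1 = i}.ncard

/-- `N_q(R)`: the number of translates of the set of tiles `q` all of whose tiles belong to `P`
and are contained in `R`. -/
noncomputable def patternCount (P : Set F.Tile) (R : Set (Sp d)) (q : Set F.Tile) : ℕ :=
  {v : Sp d | ∀ t ∈ F.translate v q, t ∈ P ∧ F.body t ⊆ R}.ncard

/-- A local matching rule `(r, 𝒜)`: a radius `r > 0` and a finite set `𝒜` of patches. -/
structure MatchingRule where
  r : ℝ
  r_pos : 0 < r
  allowed : Set (Set F.Tile)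
  allowed_finite : allowed.Finite
  allowed_patch : ∀ Q ∈ allowed, F.IsPatch Q

variable {F} (M : F.MatchingRule)

/-- A set of tiles `P` is legal if for every point `x` the tiles of `P` meeting the ball
`B(x, r)` form a translate of a sub-patch of an allowed patch. -/
def MatchingRule.Legal (P : Set F.Tile) : Prop :=
  ∀ x : Sp d, ∃ Q ∈ M.allowed, ∃ Q' ⊆ Q, ∃ v : Sp d,
    {t | t ∈ P ∧ (F.body t ∩ Metric.closedBall x M.r).Nonempty} = F.translate v Q'

/-- Condition (A): in every legal tiling, for every region `R` which is a finite union of its
tiles and every tile type `i`, `|N_i(R) - dens i * vol R| ≤ c i * |∂R|`. -/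
def MatchingRule.CondA (dens c : F.ι → ℝ) : Prop :=
  ∀ T : Set F.Tile, F.IsTiling T → M.Legal T → ∀ S ⊆ T, S.Finite → ∀ i : F.ι,
    |(F.count T (F.region S) i : ℝ) - dens i * vol (F.region S)| ≤
      c i * perimeter (F.region S)

/-- Condition (B): the same bound for every legal finite patch. -/
def MatchingRule.CondB (dens c : F.ι → ℝ) : Prop :=
  ∀ P : Set F.Tile, F.IsPatch P → M.Legal P → ∀ S ⊆ P, ∀ i : F.ι,
    |(F.count P (F.region S) i : ℝ) - dens i * vol (F.region S)| ≤
      c i * perimeter (F.region S)

/-- Condition (A) for the pattern `q` (a finite set of tiles) in place of a tile type. -/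
def MatchingRule.PatternA (q : Set F.Tile) (dens c : ℝ) : Prop :=
  ∀ T : Set F.Tile, F.IsTiling T → M.Legal T → ∀ S ⊆ T, S.Finite →
    |(F.patternCount T (F.region S) q : ℝ) - dens * vol (F.region S)| ≤
      c * perimeter (F.region S)

/-- Condition (B) for the pattern `q` (a finite set of tiles) in place of a tile type. -/
def MatchingRule.PatternB (q : Set F.Tile) (dens c : ℝ) : Prop :=
  ∀ P : Set F.Tile, F.IsPatch P → M.Legal P → ∀ S ⊆ P,
    |(F.patternCount P (F.region S) q : ℝ) - dens * vol (F.region S)| ≤
      c * perimeter (F.region S)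

end ProtoSet

end Pool.Agent.Helper42.Miek
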