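import Pool.Agent.Helper42.Miek.KariExists

set_option autoImplicit false

namespace Pool.Agent.Helper42.Miek

open Finset

/-- number of letters -/
@[irreducible] noncomputable def mm : ℕ := Fintype.card W

theorem mm_eq : mm = Fintype.card W := by
  unfold mm
  rfl

theorem mm_pos : 0 < mm := by
  rw [mm_eq]
  exact Fintype.card_pos_iff.2 ⟨conf 0 0⟩

instance : NeZero mm := ⟨mm_pos.ne'⟩

/-- cyclic numbering of the letters -/
noncomputable def ee : W ≃ ZMod mm := Fintype.equivOfCardEq (by rw [ZMod.card, mm_eq])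

/-- cyclic shift of a letter -/
noncomputable def rot (w : W) (s : ℤ) : W := ee.symm (ee w + (s : ZMod mm))

theorem rot_zero (w : W) : rot w 0 = w := by
  unfold rot
  simp

theorem rot_inj {w : W} {s s' : ℤ} (h : rot w s = rot w s') (h1 : 0 ≤ s) (h2 : s < mm)
    (h3 : 0 ≤ s') (h4 : s' < mm) : s = s' := by
  unfold rot at h
  have h5 := ee.symm.injective h
  have h6 := add_left_cancel h5
  rw [ZMod.intCast_eq_intCast_iff] at h6
  have h7 := Int.ModEq.eq h6
  rwa [Int.emod_eq_of_lt h1 h2, Int.emod_eq_of_lt h3 h4] at h7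

theorem rot_surj (w a : W) : ∃ s : ℤ, 0 ≤ s ∧ s < mm ∧ rot w s = a := by
  refine ⟨((ee a - ee w).val : ℤ), by positivity, by exact_mod_cast ZMod.val_lt _, ?_⟩
  unfold rot
  rw [Int.cast_natCast, ZMod.natCast_val, ZMod.cast_id']
  simp

/-- the period of the markers in the coarse lattice -/
noncomputable def MM : ℤ := (mm : ℤ) + 1

theorem MM_pos : 0 < MM := by unfold MM; positivity

/-- the coarse encoding: a marker followed by all letters in cyclic order -/
noncomputable def cc (t : ℤ → ℤ → W) (X Y : ℤ) : Option W :=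
  if X % MM = 0 then none else some (rot (t (X / MM) Y) (X % MM - 1))

theorem cc_bij (t : ℤ → ℤ → W) (Y : ℤ) (o : Option W) :
    ∃ s : ℤ, (0 ≤ s ∧ s < MM ∧ cc t s Y = o) ∧
      ∀ s', 0 ≤ s' → s' < MM → cc t s' Y = o → s' = s := by
  have hval : ∀ s : ℤ, 0 ≤ s → s < MM →
      cc t s Y = if s = 0 then none else some (rot (t 0 Y) (s - 1)) := by
    intro s h1 h2
    unfold cc
    rw [Int.emod_eq_of_lt h1 h2, Int.ediv_eq_zero_of_lt h1 h2]
  cases o with
  | none =>
    refine ⟨0, ⟨le_refl _, MM_pos, ?_⟩, ?_⟩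
    · rw [hval 0 le_rfl MM_pos]; simp
    · intro s' h1 h2 h3
      rw [hval s' h1 h2] at h3
      by_contra hne
      rw [if_neg hne] at h3
      simp at h3
  | some a =>
    obtain ⟨s, h1, h2, h3⟩ := rot_surj (t 0 Y) a
    have hM : s + 1 < MM := by unfold MM; omega
    refine ⟨s + 1, ⟨by omega, hM, ?_⟩, ?_⟩
    · rw [hval (s + 1) (by omega) hM, if_neg (by omega), add_sub_cancel_right, h3]
    · intro s' h4 h5 h6
      rw [hval s' h4 h5] at h6
      by_cases hne : s' = 0
      · rw [if_pos hne] at h6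
        simp at h6
      · rw [if_neg hne] at h6
        have h7 : rot (t 0 Y) (s' - 1) = rot (t 0 Y) s := by
          rw [h3]; exact Option.some.inj h6
        have h8 := rot_inj h7 (by omega) (by unfold MM at h5; omega) h1 h2
        omega

theorem cc_shift (t : ℤ → ℤ → W) (X Y i j : ℤ) :
    cc t (X + MM * i) (Y + j) = cc (fun a b => t (a + i) (b + j)) X Y := by
  unfold cc
  rw [Int.add_mul_emod_self_left, Int.add_mul_ediv_left _ _ MM_pos.ne']

/-- The label of a site: blank, marker or letter. -/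
abbrev Lab : Type := Option (Option W)

section
variable (k : ℤ)

/-- the encoding with spacing `k` -/
noncomputable def enc (t : ℤ → ℤ → W) (x y : ℤ) : Lab :=
  if k ∣ x ∧ k ∣ y then some (cc t (x / k) (y / k)) else none

variable {k} (hk : 0 < k)

theorem enc_ne_none (t : ℤ → ℤ → W) (x y : ℤ) : enc k t x y ≠ none ↔ k ∣ x ∧ k ∣ y := by
  unfold enc
  by_cases h : k ∣ x ∧ k ∣ y
  · simp [h]
  · simp [h]

include hk

theorem enc_mul (t : ℤ → ℤ → W) (X Y : ℤ) : enc k t (k * X) (k * Y) = some (cc t X Y) := by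
  unfold enc
  rw [if_pos ⟨dvd_mul_right _ _, dvd_mul_right _ _⟩, Int.mul_ediv_cancel_left _ hk.ne',
    Int.mul_ediv_cancel_left _ hk.ne']

theorem enc_shift (t : ℤ → ℤ → W) (x y i j : ℤ) :
    enc k t (x + k * MM * i) (y + k * j) = enc k (fun a b => t (a + i) (b + j)) x y := by
  by_cases h : k ∣ x ∧ k ∣ y
  · obtain ⟨⟨X, rfl⟩, ⟨Y, rfl⟩⟩ := h
    have e1 : k * X + k * MM * i = k * (X + MM * i) := by ring
    have e2 : k * Y + k * j = k * (Y + j) := by ring
    rw [e1, e2, enc_mul hk, enc_mul hk, cc_shift]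
  · have h' : ¬ (k ∣ (x + k * MM * i) ∧ k ∣ (y + k * j)) := by
      rintro ⟨h1, h2⟩
      apply h
      constructor
      · rw [mul_assoc] at h1
        exact (Int.dvd_add_left (dvd_mul_right _ _)).1 h1
      · exact (Int.dvd_add_left (dvd_mul_right _ _)).1 h2
    unfold enc
    rw [if_neg h, if_neg h']

theorem enc_mark (t : ℤ → ℤ → W) (x y : ℤ) :
    enc k t x y = some none ↔ k * MM ∣ x ∧ k ∣ y := by
  constructor
  · intro h
    have h1 : enc k t x y ≠ none := by rw [h]; simp
    rw [enc_ne_none] at h1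
    obtain ⟨⟨X, rfl⟩, ⟨Y, rfl⟩⟩ := h1
    rw [enc_mul hk] at h
    have h2 := Option.some.inj h
    unfold cc at h2
    by_cases h3 : X % MM = 0
    · refine ⟨?_, dvd_mul_right _ _⟩
      exact mul_dvd_mul_left k (Int.dvd_of_emod_eq_zero h3)
    · rw [if_neg h3] at h2
      simp at h2
  · rintro ⟨⟨a, rfl⟩, ⟨b, rfl⟩⟩
    rw [mul_assoc, enc_mul hk]
    unfold cc
    rw [Int.mul_emod_right]
    simp

/-- each nonblank label occurs exactly once in a block -/
theorem enc_block (t : ℤ → ℤ → W) (o : Option W) :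
    ∃ x : ℤ, (0 ≤ x ∧ x < k * MM ∧ enc k t x 0 = some o) ∧
      ∀ x' y', 0 ≤ x' → x' < k * MM → 0 ≤ y' → y' < k → enc k t x' y' = some o →
        x' = x ∧ y' = 0 := by
  obtain ⟨s, ⟨h1, h2, h3⟩, h4⟩ := cc_bij t 0 o
  refine ⟨k * s, ⟨by positivity, ?_, ?_⟩, ?_⟩
  · exact mul_lt_mul_of_pos_left h2 hk
  · have := enc_mul hk t s 0
    rw [mul_zero] at this
    rw [this, h3]
  · intro x' y' hx1 hx2 hy1 hy2 hxy
    have h5 : enc k t x' y' ≠ none := by rw [hxy]; simp
    rw [enc_ne_none] at h5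
    obtain ⟨⟨X, rfl⟩, ⟨Y, rfl⟩⟩ := h5
    have hY : Y = 0 := by
      have h6 : 0 ≤ Y := by
        by_contra hneg
        push Not at hneg
        nlinarith
      have h7 : Y < 1 := by
        by_contra hneg
        push Not at hneg
        nlinarith
      omega
    subst hY
    have hX1 : 0 ≤ X := by
      by_contra hneg
      push Not at hneg
      nlinarith
    have hX2 : X < MM := lt_of_mul_lt_mul_left hx2 hk.le
    rw [enc_mul hk] at hxy
    have := h4 X hX1 hX2 (Option.some.inj hxy)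
    rw [this]
    exact ⟨rfl, mul_zero _⟩

end

end Pool.Agent.Helper42.Miek
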