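import Mathlib

set_option autoImplicit false

namespace Pool.Agent.Helper42.Miek

open Finset

/-- digits and carries: the integers from -1 to 2 -/
abbrev Dg : Type := {z : ℤ // z ∈ Finset.Icc (-1 : ℤ) 2}

/-- a letter: multiplier, input digit, output digit, left carry, right carry -/
abbrev W : Type := Bool × Dg × Dg × Dg × Dg

def W.a (w : W) : ℤ := w.2.1.1
def W.b (w : W) : ℤ := w.2.2.1.1
def W.l (w : W) : ℤ := w.2.2.2.1.1
def W.r (w : W) : ℤ := w.2.2.2.2.1

def Good (w : W) : Prop :=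
  (w.1 = true ∧ 0 ≤ W.a w ∧ W.a w ≤ 1 ∧ 1 ≤ W.b w ∧ W.b w ≤ 2 ∧
    2 * W.a w + W.l w = W.b w + W.r w) ∨
  (w.1 = false ∧ 1 ≤ W.a w ∧ W.a w ≤ 2 ∧ 0 ≤ W.b w ∧ W.b w ≤ 2 ∧
    2 * W.a w + W.l w = 3 * W.b w + W.r w)

def HH (w w' : W) : Prop := Good w ∧ w.1 = w'.1 ∧ W.r w = W.l w'

def VV (w w' : W) : Prop := W.b w = W.a w'

/-- valid configurations -/
def Val (t : ℤ → ℤ → W) : Prop := ∀ i j, HH (t i j) (t (i + 1) j) ∧ VV (t i j) (t i (j + 1))

theorem l_mem (w : W) : -1 ≤ W.l w ∧ W.l w ≤ 2 := by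
  have := w.2.2.2.1.2
  rw [Finset.mem_Icc] at this
  exact this

theorem r_mem (w : W) : -1 ≤ W.r w ∧ W.r w ≤ 2 := by
  have := w.2.2.2.2.2
  rw [Finset.mem_Icc] at this
  exact this

section aper

variable {t : ℤ → ℤ → W} (ht : Val t)

include ht

theorem Val.good (i j : ℤ) : Good (t i j) := (ht i j).1.1

theorem Val.bounds (i j : ℤ) : 0 ≤ W.a (t i j) ∧ W.a (t i j) ≤ 2 := by
  rcases ht.good i j with h | h <;> omega

theorem Val.row (j : ℤ) : ∀ i : ℤ, (t i j).1 = (t 0 j).1 := by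
  intro i
  induction i using Int.induction_on with
  | zero => rfl
  | succ n ih => rw [← ih]; exact ((ht _ _).1.2.1).symm
  | pred n ih =>
    rw [← ih]
    have := (ht (-(n : ℤ) - 1) j).1.2.1
    rw [sub_add_cancel] at this
    exact this

/-- partial sums of a row -/
theorem Val.sum_true {j : ℤ} (hq : (t 0 j).1 = true) (N : ℕ) (i0 : ℤ) :
    2 * ∑ i ∈ range N, W.a (t (i0 + i) j) + W.l (t i0 j) =
      ∑ i ∈ range N, W.a (t (i0 + i) (j + 1)) + W.l (t (i0 + N) j) := by
  induction N with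
  | zero => simp
  | succ N ih =>
    rw [sum_range_succ, sum_range_succ]
    have h1 := ht.good (i0 + N) j
    have h2 := ht.row j (i0 + N)
    have h3 := (ht (i0 + N) j).1.2.2
    have h4 := (ht (i0 + N) j).2
    unfold VV at h4
    rw [hq] at h2
    have e : i0 + ((N + 1 : ℕ) : ℤ) = i0 + N + 1 := by push_cast; ring
    rw [e]
    rcases h1 with h | h
    · omega
    · rw [h2] at h; simp at h

theorem Val.sum_false {j : ℤ} (hq : (t 0 j).1 = false) (N : ℕ) (i0 : ℤ) :
    2 * ∑ i ∈ range N, W.a (t (i0 + i) j) + W.l (t i0 j) =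
      3 * ∑ i ∈ range N, W.a (t (i0 + i) (j + 1)) + W.l (t (i0 + N) j) := by
  induction N with
  | zero => simp
  | succ N ih =>
    rw [sum_range_succ, sum_range_succ]
    have h1 := ht.good (i0 + N) j
    have h2 := ht.row j (i0 + N)
    have h3 := (ht (i0 + N) j).1.2.2
    have h4 := (ht (i0 + N) j).2
    unfold VV at h4
    rw [hq] at h2
    have e : i0 + ((N + 1 : ℕ) : ℤ) = i0 + N + 1 := by push_cast; ring
    rw [e]
    rcases h1 with h | h
    · rw [h2] at h; simp at h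
    · omega

theorem Val.large (j : ℤ) (N : ℕ) (i0 : ℤ) :
    (N : ℤ) ≤ ∑ i ∈ range N, W.a (t (i0 + i) j) ∨
    (N : ℤ) ≤ ∑ i ∈ range N, W.a (t (i0 + i) (j + 1)) := by
  have hsum : ∀ j', (∀ i, 1 ≤ W.a (t i j')) → (N : ℤ) ≤ ∑ i ∈ range N, W.a (t (i0 + i) j') := by
    intro j' h
    calc (N : ℤ) = ∑ i ∈ range N, (1 : ℤ) := by simp
      _ ≤ _ := sum_le_sum (fun i _ => h _)
  rcases hq : (t 0 j).1 with _ | _
  · left
    apply hsum
    intro i
    have h2 := ht.row j i
    rw [hq] at h2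
    rcases ht.good i j with h | h
    · rw [h2] at h; simp at h
    · exact h.2.1
  · right
    apply hsum
    intro i
    have h2 := ht.row j i
    have h4 := (ht i j).2
    unfold VV at h4
    rw [← h4]
    rw [hq] at h2
    rcases ht.good i j with h | h
    · exact h.2.2.2.1
    · rw [h2] at h; simp at h

/-- no horizontal period -/
theorem Val.no_horizontal {p : ℕ} (hp : 0 < p) : ¬ ∀ i j, t (i + p) j = t i j := by
  intro hper
  have key : ∀ m : ℕ, ∃ b : ℕ, 2 ^ m * ∑ i ∈ range p, W.a (t (0 + i) 0) =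
      3 ^ b * ∑ i ∈ range p, W.a (t (0 + i) m) := by
    intro m
    induction m with
    | zero => exact ⟨0, by simp⟩
    | succ m ih =>
      obtain ⟨b, hb⟩ := ih
      rcases hq : (t 0 (m : ℤ)).1 with _ | _
      · have := ht.sum_false hq p 0
        rw [hper 0 m] at this
        refine ⟨b + 1, ?_⟩
        push_cast
        rw [pow_succ, pow_succ]
        linear_combination 2 * hb + 3 ^ b * this
      · have := ht.sum_true hq p 0
        rw [hper 0 m] at this
        refine ⟨b, ?_⟩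
        push_cast
        rw [pow_succ]
        linear_combination 2 * hb + 3 ^ b * this
  have hpos : ∀ j : ℤ, 1 ≤ ∑ i ∈ range p, W.a (t (0 + i) j) := by
    intro j
    rcases ht.large j p 0 with h | h
    · omega
    · rcases hq : (t 0 j).1 with _ | _
      · have := ht.sum_false hq p 0
        rw [hper 0 j] at this
        omega
      · have := ht.sum_true hq p 0
        rw [hper 0 j] at this
        omega
  obtain ⟨b, hb⟩ := key (2 * p)
  have hdvd : (2 : ℤ) ^ (2 * p) ∣ ∑ i ∈ range p, W.a (t (0 + i) ((2 * p : ℕ) : ℤ)) := by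
    have h1 : (2 : ℤ) ^ (2 * p) ∣ 3 ^ b * ∑ i ∈ range p, W.a (t (0 + i) ((2 * p : ℕ) : ℤ)) :=
      ⟨_, hb.symm⟩
    refine IsCoprime.dvd_of_dvd_mul_left ?_ h1
    apply IsCoprime.pow
    norm_num
  have h2 := Int.le_of_dvd (by have := hpos ((2 * p : ℕ) : ℤ); omega) hdvd
  have h3 : ∑ i ∈ range p, W.a (t (0 + i) ((2 * p : ℕ) : ℤ)) ≤ 2 * p := by
    calc _ ≤ ∑ i ∈ range p, (2 : ℤ) := sum_le_sum (fun i _ => (ht.bounds _ _).2)
      _ = 2 * p := by simp [mul_comm]
  have h4 : (2 * p : ℕ) < 2 ^ (2 * p) := Nat.lt_two_pow_self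
  have h5 : ((2 * p : ℕ) : ℤ) < 2 ^ (2 * p) := by exact_mod_cast h4
  push_cast at h5
  omega

/-- rows far apart -/
theorem Val.rows (j : ℤ) (m : ℕ) : ∃ b : ℕ, ∃ C : ℤ, ∀ N : ℕ,
    |3 ^ b * ∑ i ∈ range N, W.a (t (0 + i) (j + m)) -
      2 ^ m * ∑ i ∈ range N, W.a (t (0 + i) j)| ≤ C := by
  induction m with
  | zero => exact ⟨0, 0, by intro N; simp⟩
  | succ m ih =>
    obtain ⟨b, C, hC⟩ := ih
    have e : j + ((m + 1 : ℕ) : ℤ) = j + m + 1 := by push_cast; ring
    rw [e]
    rcases hq : (t 0 (j + m)).1 with _ | _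
    · refine ⟨b + 1, 2 * C + 3 ^ b * 3, ?_⟩
      intro N
      have h1 := ht.sum_false hq N 0
      have h2 := hC N
      have h3 := l_mem (t 0 (j + m))
      have h4 := l_mem (t (0 + N) (j + m))
      set A := ∑ i ∈ range N, W.a (t (0 + i) (j + m))
      set B := ∑ i ∈ range N, W.a (t (0 + i) (j + m + 1))
      set A0 := ∑ i ∈ range N, W.a (t (0 + i) j)
      have e2 : 3 ^ (b + 1) * B - 2 ^ (m + 1) * A0 = 2 * (3 ^ b * A - 2 ^ m * A0) +
          3 ^ b * (W.l (t 0 (j + m)) - W.l (t (0 + N) (j + m))) := by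
        rw [pow_succ, pow_succ]
        linear_combination (-3 ^ b) * h1
      rw [e2]
      have h5 : |W.l (t 0 (j + m)) - W.l (t (0 + N) (j + m))| ≤ 3 := by
        rw [abs_le]; omega
      calc _ ≤ |2 * (3 ^ b * A - 2 ^ m * A0)| +
            |3 ^ b * (W.l (t 0 (j + m)) - W.l (t (0 + N) (j + m)))| := abs_add_le _ _
        _ ≤ _ := by
            rw [abs_mul, abs_mul, abs_two, abs_of_pos (by positivity : (0 : ℤ) < 3 ^ b)]
            have := mul_le_mul_of_nonneg_left h5 (by positivity : (0 : ℤ) ≤ 3 ^ b)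
            linarith
    · refine ⟨b, 2 * C + 3 ^ b * 3, ?_⟩
      intro N
      have h1 := ht.sum_true hq N 0
      have h2 := hC N
      have h3 := l_mem (t 0 (j + m))
      have h4 := l_mem (t (0 + N) (j + m))
      set A := ∑ i ∈ range N, W.a (t (0 + i) (j + m))
      set B := ∑ i ∈ range N, W.a (t (0 + i) (j + m + 1))
      set A0 := ∑ i ∈ range N, W.a (t (0 + i) j)
      have e2 : 3 ^ b * B - 2 ^ (m + 1) * A0 = 2 * (3 ^ b * A - 2 ^ m * A0) +
          3 ^ b * (W.l (t 0 (j + m)) - W.l (t (0 + N) (j + m))) := by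
        rw [pow_succ]
        linear_combination (-3 ^ b) * h1
      rw [e2]
      have h5 : |W.l (t 0 (j + m)) - W.l (t (0 + N) (j + m))| ≤ 3 := by
        rw [abs_le]; omega
      calc _ ≤ |2 * (3 ^ b * A - 2 ^ m * A0)| +
            |3 ^ b * (W.l (t 0 (j + m)) - W.l (t (0 + N) (j + m)))| := abs_add_le _ _
        _ ≤ _ := by
            rw [abs_mul, abs_mul, abs_two, abs_of_pos (by positivity : (0 : ℤ) < 3 ^ b)]
            have := mul_le_mul_of_nonneg_left h5 (by positivity : (0 : ℤ) ≤ 3 ^ b)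
            linarith

/-- shifted window sums -/
theorem Val.shift (j : ℤ) (N : ℕ) (p : ℤ) :
    |∑ i ∈ range N, W.a (t (p + i) j) - ∑ i ∈ range N, W.a (t (0 + i) j)| ≤ 4 * |p| := by
  have step : ∀ x : ℤ, |∑ i ∈ range N, W.a (t (x + 1 + i) j) -
      ∑ i ∈ range N, W.a (t (x + i) j)| ≤ 4 := by
    intro x
    have h1 : ∑ i ∈ range N, W.a (t (x + 1 + i) j) - ∑ i ∈ range N, W.a (t (x + i) j) =
        W.a (t (x + N) j) - W.a (t x j) := by
      rw [← sum_sub_distrib]
      have := Finset.sum_range_sub (fun i : ℕ => W.a (t (x + i) j)) N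
      simp only [Nat.cast_zero, add_zero] at this
      rw [← this]
      apply sum_congr rfl
      intro i _
      push_cast
      ring_nf
    rw [h1, abs_le]
    have := ht.bounds (x + N) j
    have := ht.bounds x j
    omega
  induction p using Int.induction_on with
  | zero => simp
  | succ n ih =>
    have := step n
    have e : |(n : ℤ) + 1| = |(n : ℤ)| + 1 := by
      rw [abs_of_nonneg (by omega), abs_of_nonneg (by omega)]
    rw [e]
    rw [abs_le] at *
    constructor <;> linarith [this.1, this.2, ih.1, ih.2]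
  | pred n ih =>
    have := step (-(n : ℤ) - 1)
    rw [sub_add_cancel] at this
    have e : |-(n : ℤ) - 1| = |-(n : ℤ)| + 1 := by
      rw [abs_of_nonpos (by omega), abs_of_nonpos (by omega)]; ring
    rw [e]
    rw [abs_le] at *
    constructor <;> linarith [this.1, this.2, ih.1, ih.2]

theorem Val.row_bounded {p : ℤ} {m : ℕ} (hm : 0 < m) (hper : ∀ i j, t (i + p) (j + m) = t i j)
    (j : ℤ) : ∃ C : ℤ, ∀ N : ℕ, ∑ i ∈ range N, W.a (t (0 + i) j) ≤ C := by
  obtain ⟨b, C, hC⟩ := ht.rows j m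
  refine ⟨C + 3 ^ b * (4 * |p|), ?_⟩
  intro N
  have h1 := hC N
  have h2 := ht.shift (j + m) N p
  have h3 : ∑ i ∈ range N, W.a (t (p + i) (j + m)) = ∑ i ∈ range N, W.a (t (0 + i) j) := by
    apply sum_congr rfl
    intro i _
    rw [← hper (0 + i) j]
    ring_nf
  rw [h3] at h2
  set A := ∑ i ∈ range N, W.a (t (0 + i) j)
  set B := ∑ i ∈ range N, W.a (t (0 + i) (j + m))
  have hA0 : 0 ≤ A := sum_nonneg (fun i _ => (ht.bounds _ _).1)
  have hne : (3 : ℤ) ^ b ≠ 2 ^ m := by
    intro h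
    have h5 : Odd ((3 : ℤ) ^ b) := Odd.pow (by decide)
    rw [h] at h5
    have h6 : Even ((2 : ℤ) ^ m) := by
      rw [Int.even_pow]
      exact ⟨by decide, hm.ne'⟩
    exact (Int.not_even_iff_odd.2 h5) h6
  have h4 : |(3 ^ b - 2 ^ m) * A| ≤ C + 3 ^ b * (4 * |p|) := by
    have e : (3 ^ b - 2 ^ m) * A = (3 ^ b * B - 2 ^ m * A) + 3 ^ b * (A - B) := by ring
    rw [e]
    calc _ ≤ |3 ^ b * B - 2 ^ m * A| + |3 ^ b * (A - B)| := abs_add_le _ _
      _ ≤ _ := by
        rw [abs_mul (3 ^ b), abs_of_pos (by positivity : (0 : ℤ) < 3 ^ b)]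
        have := mul_le_mul_of_nonneg_left h2 (by positivity : (0 : ℤ) ≤ 3 ^ b)
        linarith
  refine le_trans ?_ h4
  rw [abs_mul, abs_of_nonneg hA0]
  have h7 : 1 ≤ |(3 : ℤ) ^ b - 2 ^ m| := Int.one_le_abs (sub_ne_zero.2 hne)
  nlinarith

theorem Val.no_vertical {p : ℤ} {m : ℕ} (hm : 0 < m) : ¬ ∀ i j, t (i + p) (j + m) = t i j := by
  intro hper
  obtain ⟨C1, h1⟩ := ht.row_bounded hm hper 0
  obtain ⟨C2, h2⟩ := ht.row_bounded hm hper (0 + 1)
  set N : ℕ := (max C1 C2 + 1).toNat with hN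
  have hN1 : max C1 C2 + 1 ≤ (N : ℤ) := Int.self_le_toNat _
  have := le_max_left C1 C2
  have := le_max_right C1 C2
  rcases ht.large 0 N 0 with h | h
  · have := h1 N
    omega
  · have := h2 N
    omega

/-- valid configurations have no period -/
theorem Val.aperiodic {p m : ℤ} (hper : ∀ i j, t (i + p) (j + m) = t i j) : p = 0 ∧ m = 0 := by
  have hper' : ∀ i j, t (i + -p) (j + -m) = t i j := by
    intro i j
    have := hper (i + -p) (j + -m)
    rw [neg_add_cancel_right, neg_add_cancel_right] at this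
    exact this.symm
  rcases lt_trichotomy m 0 with hm | hm | hm
  · exfalso
    obtain ⟨n, hn⟩ := Int.eq_ofNat_of_zero_le (show 0 ≤ -m by omega)
    rw [hn] at hper'
    exact ht.no_vertical (by omega) hper'
  · subst hm
    rcases lt_trichotomy p 0 with hp | hp | hp
    · exfalso
      obtain ⟨n, hn⟩ := Int.eq_ofNat_of_zero_le (show 0 ≤ -p by omega)
      rw [hn] at hper'
      refine ht.no_horizontal (p := n) (by omega) ?_
      intro i j
      have := hper' i j
      simpa using this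
    · exact ⟨hp, rfl⟩
    · exfalso
      obtain ⟨n, hn⟩ := Int.eq_ofNat_of_zero_le (show 0 ≤ p by omega)
      rw [hn] at hper
      refine ht.no_horizontal (p := n) (by omega) ?_
      intro i j
      have := hper i j
      simpa using this
  · exfalso
    obtain ⟨n, hn⟩ := Int.eq_ofNat_of_zero_le (show 0 ≤ m by omega)
    rw [hn] at hper
    exact ht.no_vertical (by omega) hper

end aper

end Pool.Agent.Helper42.Miek
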