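import Pool.Agent.Helper42.Miek.Kari

set_option autoImplicit false

namespace Pool.Agent.Helper42.Miek

open Finset

/-- the interval `(2/3, 2]` -/
abbrev II : Type := {x : ℝ // 2 / 3 < x ∧ x ≤ 2}

noncomputable def ff (x : II) : II :=
  if h : x.1 ≤ 1 then ⟨2 * x.1, by have := x.2; constructor <;> linarith⟩
  else ⟨2 / 3 * x.1, by have := x.2; push Not at h; constructor <;> linarith⟩

noncomputable def gg (x : II) : II :=
  if h : x.1 ≤ 4 / 3 then ⟨3 / 2 * x.1, by have := x.2; constructor <;> linarith⟩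
  else ⟨x.1 / 2, by have := x.2; push Not at h; constructor <;> linarith⟩

noncomputable def perm : Equiv.Perm II where
  toFun := ff
  invFun := gg
  left_inv := by
    intro x
    have hx := x.2
    unfold ff gg
    apply Subtype.ext
    by_cases h : x.1 ≤ 1
    · have h2 : ¬ (2 * x.1 ≤ 4 / 3) := by push Not; linarith
      simp only [h, dite_true, h2, dite_false]
      linarith
    · have h2 : 2 / 3 * x.1 ≤ 4 / 3 := by linarith
      simp only [h, dite_false, h2, dite_true]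
      linarith
  right_inv := by
    intro x
    have hx := x.2
    unfold ff gg
    apply Subtype.ext
    by_cases h : x.1 ≤ 4 / 3
    · have h2 : ¬ (3 / 2 * x.1 ≤ 1) := by push Not; linarith
      simp only [h, dite_true, h2, dite_false]
      linarith
    · have h2 : x.1 / 2 ≤ 1 := by linarith
      simp only [h, dite_false, h2, dite_true]
      linarith

/-- the densities of the rows -/
noncomputable def al (j : ℤ) : ℝ := ((perm ^ j) ⟨1, by norm_num⟩).1

theorem al_mem (j : ℤ) : 2 / 3 < al j ∧ al j ≤ 2 := ((perm ^ j) ⟨1, by norm_num⟩).2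

theorem al_succ (j : ℤ) : al (j + 1) = if al j ≤ 1 then 2 * al j else 2 / 3 * al j := by
  unfold al
  rw [add_comm, zpow_one_add, Equiv.Perm.mul_apply]
  change (ff _).1 = _
  unfold ff
  split_ifs <;> rfl

def mk (z : ℤ) : Dg := ⟨max (-1) (min z 2), by
  rw [Finset.mem_Icc]
  constructor
  · exact le_max_left _ _
  · exact max_le (by norm_num) (min_le_right _ _)⟩

theorem mk_val {z : ℤ} (h1 : -1 ≤ z) (h2 : z ≤ 2) : (mk z).1 = z := by
  unfold mk
  simp only
  omega

/-- digits -/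
noncomputable def dig (i j : ℤ) : ℤ := ⌊((i : ℝ) + 1) * al j⌋ - ⌊(i : ℝ) * al j⌋

/-- carries -/
noncomputable def car (i j : ℤ) : ℤ :=
  if al j ≤ 1 then 2 * ⌊(i : ℝ) * al j⌋ - ⌊(i : ℝ) * al (j + 1)⌋
  else 2 * ⌊(i : ℝ) * al j⌋ - 3 * ⌊(i : ℝ) * al (j + 1)⌋

theorem dig_bounds (i j : ℤ) : 0 ≤ dig i j ∧ dig i j ≤ 2 := by
  unfold dig
  have h := al_mem j
  have h1 : ((i : ℝ) + 1) * al j = i * al j + al j := by ring
  rw [h1]
  constructor
  · have : ⌊(i : ℝ) * al j⌋ ≤ ⌊(i : ℝ) * al j + al j⌋ := Int.floor_mono (by linarith)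
    omega
  · have : ⌊(i : ℝ) * al j + al j⌋ ≤ ⌊(i : ℝ) * al j + (2 : ℤ)⌋ :=
      Int.floor_mono (by push_cast; linarith)
    rw [Int.floor_add_intCast] at this
    omega

theorem dig_le_one {i j : ℤ} (h : al j ≤ 1) : dig i j ≤ 1 := by
  unfold dig
  have h1 : ((i : ℝ) + 1) * al j = i * al j + al j := by ring
  rw [h1]
  have : ⌊(i : ℝ) * al j + al j⌋ ≤ ⌊(i : ℝ) * al j + (1 : ℤ)⌋ :=
    Int.floor_mono (by push_cast; linarith)
  rw [Int.floor_add_intCast] at this
  omega

theorem one_le_dig {i j : ℤ} (h : 1 ≤ al j) : 1 ≤ dig i j := by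
  unfold dig
  have h1 : ((i : ℝ) + 1) * al j = i * al j + al j := by ring
  rw [h1]
  have : ⌊(i : ℝ) * al j + (1 : ℤ)⌋ ≤ ⌊(i : ℝ) * al j + al j⌋ :=
    Int.floor_mono (by push_cast; linarith)
  rw [Int.floor_add_intCast] at this
  omega

theorem car_bounds (i j : ℤ) : -1 ≤ car i j ∧ car i j ≤ 2 := by
  unfold car
  have h := al_succ j
  split_ifs with hc
  · rw [if_pos hc] at h
    rw [h]
    have e : (i : ℝ) * (2 * al j) = 2 * (i * al j) := by ring
    rw [e]
    set x := (i : ℝ) * al j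
    have h1 := Int.floor_le x
    have h2 := Int.lt_floor_add_one x
    have h3 := Int.floor_le (2 * x)
    have h4 := Int.lt_floor_add_one (2 * x)
    have h5 : ((2 * ⌊x⌋ : ℤ) : ℝ) < ((⌊2 * x⌋ + 1 : ℤ) : ℝ) := by push_cast; linarith
    have h6 : ((⌊2 * x⌋ : ℤ) : ℝ) < ((2 * ⌊x⌋ + 2 : ℤ) : ℝ) := by push_cast; linarith
    have h7 : 2 * ⌊x⌋ < ⌊2 * x⌋ + 1 := by exact_mod_cast h5
    have h8 : ⌊2 * x⌋ < 2 * ⌊x⌋ + 2 := by exact_mod_cast h6
    omega
  · rw [if_neg hc] at h
    rw [h]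
    have e : (i : ℝ) * (2 / 3 * al j) = 2 / 3 * (i * al j) := by ring
    rw [e]
    set x := (i : ℝ) * al j
    have h1 := Int.floor_le x
    have h2 := Int.lt_floor_add_one x
    have h3 := Int.floor_le (2 / 3 * x)
    have h4 := Int.lt_floor_add_one (2 / 3 * x)
    have h5 : ((2 * ⌊x⌋ : ℤ) : ℝ) < ((3 * ⌊2 / 3 * x⌋ + 3 : ℤ) : ℝ) := by push_cast; linarith
    have h6 : ((3 * ⌊2 / 3 * x⌋ : ℤ) : ℝ) < ((2 * ⌊x⌋ + 2 : ℤ) : ℝ) := by push_cast; linarith
    have h7 : 2 * ⌊x⌋ < 3 * ⌊2 / 3 * x⌋ + 3 := by exact_mod_cast h5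
    have h8 : 3 * ⌊2 / 3 * x⌋ < 2 * ⌊x⌋ + 2 := by exact_mod_cast h6
    omega

/-- the configuration -/
noncomputable def conf (i j : ℤ) : W :=
  (decide (al j ≤ 1), mk (dig i j), mk (dig i (j + 1)), mk (car i j), mk (car (i + 1) j))

theorem conf_val : Val conf := by
  intro i j
  have hd1 := dig_bounds i j
  have hd2 := dig_bounds i (j + 1)
  have hc1 := car_bounds i j
  have hc2 := car_bounds (i + 1) j
  refine ⟨⟨?_, rfl, rfl⟩, rfl⟩
  unfold Good
  have ea : W.a (conf i j) = dig i j := mk_val (by omega) (by omega)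
  have eb : W.b (conf i j) = dig i (j + 1) := mk_val (by omega) (by omega)
  have el : W.l (conf i j) = car i j := mk_val (by omega) (by omega)
  have er : W.r (conf i j) = car (i + 1) j := mk_val (by omega) (by omega)
  rw [ea, eb, el, er]
  by_cases h : al j ≤ 1
  · left
    have hs := al_succ j
    rw [if_pos h] at hs
    have hm := al_mem j
    refine ⟨by simp [conf, h], hd1.1, dig_le_one h, one_le_dig (by rw [hs]; linarith), hd2.2, ?_⟩
    unfold dig car
    rw [if_pos h, if_pos h]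
    push_cast
    ring
  · right
    push Not at h
    refine ⟨by simp [conf, h], one_le_dig h.le, hd1.2, hd2.1, hd2.2, ?_⟩
    unfold dig car
    rw [if_neg (not_le.2 h), if_neg (not_le.2 h)]
    push_cast
    ring

end Pool.Agent.Helper42.Miek
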