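import Pool.Agent.Helper42.Miek.Rule

set_option autoImplicit false

open MeasureTheory

namespace Pool.Agent.Helper42.Miek

/-- the far open side of the unit square at `p` in direction `i` -/
def Ed (i j : Fin 2) (p : Pl) : Set Pl := {x | x i = p i + 1 ∧ p j < x j ∧ x j < p j + 1}

theorem Ed_measurable (i j : Fin 2) (p : Pl) : MeasurableSet (Ed i j p) := by
  have hi := cont i
  have hj := cont j
  refine MeasurableSet.inter ?_ (MeasurableSet.inter ?_ ?_)
  · exact (isClosed_eq hi continuous_const).measurableSet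
  · exact (isOpen_lt continuous_const hj).measurableSet
  · exact (isOpen_lt hj continuous_const).measurableSet

theorem Ed_measure {i j : Fin 2} (hij : i ≠ j) (p : Pl) :
    1 ≤ Measure.hausdorffMeasure 1 (Ed i j p) := by
  have hlip : LipschitzWith 1 (fun x : Pl => x j) := by
    apply LipschitzWith.of_dist_le_mul
    intro x y
    rw [Real.dist_eq, NNReal.coe_one, one_mul]
    exact dist_coord x y j
  have h1 := hlip.hausdorffMeasure_image_le zero_le_one (Ed i j p)
  have h2 : Set.Ioo (p j) (p j + 1) ⊆ (fun x : Pl => x j) '' (Ed i j p) := by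
    intro t ht
    refine ⟨if i = 0 then pt (p i + 1) t else pt t (p i + 1), ?_, ?_⟩
    · fin_cases i <;> fin_cases j <;> simp_all [Ed]
    · fin_cases i <;> fin_cases j <;> simp_all
  have h3 : Measure.hausdorffMeasure 1 (Set.Ioo (p j) (p j + 1)) = 1 := by
    rw [hausdorffMeasure_real, Real.volume_Ioo]
    simp
  calc (1 : ENNReal) = Measure.hausdorffMeasure 1 (Set.Ioo (p j) (p j + 1)) := h3.symm
    _ ≤ Measure.hausdorffMeasure 1 ((fun x : Pl => x j) '' (Ed i j p)) := measure_mono h2
    _ ≤ _ := by simpa using h1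

/-- the unit vector of direction `i` -/
def uv (i : Fin 2) : ℤ × ℤ := if i = 0 then (1, 0) else (0, 1)

theorem io_uv_same (i : Fin 2) : io (uv i) i = 1 := by
  fin_cases i <;> simp [uv]

theorem io_uv_other {i j : Fin 2} (hij : i ≠ j) : io (uv i) j = 0 := by
  fin_cases i <;> fin_cases j <;> simp_all [uv]

theorem io_coord (u : ℤ × ℤ) (i : Fin 2) : ∃ n : ℤ, io u i = n ∧ (i = 0 → n = u.1) ∧
    (i = 1 → n = u.2) := by
  fin_cases i
  · exact ⟨u.1, rfl, by simp, by simp⟩
  · exact ⟨u.2, rfl, by simp, by simp⟩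

theorem io_ext {i j : Fin 2} (hij : i ≠ j) {x y : Pl} (h1 : x i = y i) (h2 : x j = y j) :
    x = y := by
  fin_cases i <;> fin_cases j
  · simp at hij
  · exact pl_ext h1 h2
  · exact pl_ext h2 h1
  · simp at hij

section

variable {s : ℤ} (hs : 0 < s) {P : Set sqs.Tile} (hL : (rule s hs).Legal P)
  (hN : sqs.NonOverlapping P) {S : Set sqs.Tile} (hSf : S.Finite) (hS : S ⊆ P)

include hL in
/-- integrality of nearby positions -/
theorem near_int {p q : Pl} (hp : p ∈ Pos P) (hq : q ∈ Pos P) {x : Pl} (hx : x ∈ Sq q)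
    (h0 : |x 0 - p 0| ≤ 2) (h1 : |x 1 - p 1| ≤ 2) : ∃ u : ℤ × ℤ, q = p + io u := by
  obtain ⟨c, hc, _, h2⟩ := legal_loc hL (lab_mem hp)
  have hr := rho_pos hs
  have hr' : (2 : ℝ) ≤ rho s := by
    have : 2 ≤ rho s := by
      unfold rho
      have := one_le_MM
      nlinarith
    exact_mod_cast this
  obtain ⟨u, hu, _⟩ := h2 _ (lab_mem hq) ⟨x, hx, by
    rw [Metric.mem_closedBall]
    refine (dist_le_coords _ _).trans ?_
    simp only
    linarith⟩
  exact ⟨u, hu⟩

include hL hS in
theorem Ed_frontier {i j : Fin 2} (hij : i ≠ j) {p : Pl} (hp : p ∈ Prod.snd '' S)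
    (hpe : p + io (uv i) ∉ Prod.snd '' S) (hfin : S.Finite) : Ed i j p ⊆ frontier (sqs.region S) := by
  intro x hx
  obtain ⟨x1, x2, x3⟩ := hx
  obtain ⟨⟨l, p'⟩, hpS, rfl⟩ := hp
  set p := p' with hpdef
  simp only at x1 x2 x3 hpe
  have hclosed : IsClosed (sqs.region S) := by
    unfold ProtoSet.region
    apply hfin.isClosed_biUnion
    intro t _
    rw [body_eq]
    exact Sq_closed _
  rw [hclosed.frontier_eq]
  constructor
  · unfold ProtoSet.region
    rw [Set.mem_iUnion₂]
    refine ⟨(l, p), hpS, ?_⟩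
    rw [body_eq]
    have hj : p j ≤ x j ∧ x j ≤ p j + 1 := ⟨x2.le, x3.le⟩
    have hi : p i ≤ x i ∧ x i ≤ p i + 1 := ⟨by rw [x1]; linarith, by rw [x1]⟩
    fin_cases i <;> fin_cases j
    · simp at hij
    · exact ⟨hi, hj⟩
    · exact ⟨hj, hi⟩
    · simp at hij
  · intro hint
    rw [mem_interior_iff_mem_nhds, Metric.mem_nhds_iff] at hint
    obtain ⟨ε, hε, hb⟩ := hint
    set δ := min (ε / 2) (1 / 2) with hδ
    have hδ0 : 0 < δ := lt_min (by positivity) (by norm_num)
    have hδ1 : δ < 1 := lt_of_le_of_lt (min_le_right _ _) (by norm_num)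
    have hδ2 : δ < ε := lt_of_le_of_lt (min_le_left _ _) (by linarith)
    set y : Pl := x + δ • io (uv i) with hy
    have yi : y i = x i + δ := by rw [hy]; simp [io_uv_same]
    have yj : y j = x j := by rw [hy]; simp [io_uv_other hij]
    have hyb : y ∈ sqs.region S := by
      apply hb
      rw [Metric.mem_ball, hy, dist_eq_norm]
      have : x + δ • io (uv i) - x = δ • io (uv i) := by abel
      rw [this, norm_smul, Real.norm_eq_abs, abs_of_pos hδ0]
      have hn : ‖io (uv i)‖ = 1 := by
        rw [EuclideanSpace.norm_eq, Fin.sum_univ_two]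
        fin_cases i <;> simp [uv]
      rw [hn, mul_one]
      exact hδ2
    unfold ProtoSet.region at hyb
    rw [Set.mem_iUnion₂] at hyb
    obtain ⟨σ, hσ, hyσ⟩ := hyb
    rw [body_eq] at hyσ
    have bi : |y i - p i| ≤ 2 := by
      rw [yi, x1, abs_le]; constructor <;> linarith
    have bj : |y j - p j| ≤ 2 := by
      rw [yj, abs_le]; constructor <;> linarith
    obtain ⟨u, hu⟩ : ∃ u : ℤ × ℤ, σ.2 = p + io u := by
      apply near_int hs hL (p := p) (q := σ.2) ⟨l, hS hpS⟩ ⟨σ.1, hS hσ⟩ hyσ
      · fin_cases i <;> fin_cases j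
        · simp at hij
        · exact bi
        · exact bj
        · simp at hij
      · fin_cases i <;> fin_cases j
        · simp at hij
        · exact bj
        · exact bi
        · simp at hij
    apply hpe
    refine ⟨σ, hσ, ?_⟩
    change σ.2 = p + io (uv i)
    rw [hu]
    congr 1
    -- compare coordinates
    have ci : σ.2 i ≤ y i ∧ y i ≤ σ.2 i + 1 := by
      fin_cases i
      · exact hyσ.1
      · exact hyσ.2
    have cj : σ.2 j ≤ y j ∧ y j ≤ σ.2 j + 1 := by
      fin_cases j
      · exact hyσ.1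
      · exact hyσ.2
    obtain ⟨n, hn, _⟩ := io_coord u i
    obtain ⟨m, hm, _⟩ := io_coord u j
    rw [hu, PiLp.add_apply, hn, yi, x1] at ci
    rw [hu, PiLp.add_apply, hm, yj] at cj
    have n1 : (n : ℝ) < 2 := by linarith
    have n2 : (0 : ℝ) < n := by linarith
    have n1' : n < 2 := by exact_mod_cast n1
    have n2' : 0 < n := by exact_mod_cast n2
    have m1 : (m : ℝ) < 1 := by linarith
    have m2 : (-1 : ℝ) < m := by linarith
    have m1' : m < 1 := by exact_mod_cast m1
    have m2' : -1 < m := by exact_mod_cast m2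
    have hn1 : n = 1 := by omega
    have hm0 : m = 0 := by omega
    apply io_ext hij
    · rw [hn, hn1, io_uv_same]; norm_num
    · rw [hm, hm0, io_uv_other hij]; norm_num

include hL hS in
theorem Ed_disjoint {i j : Fin 2} (hij : i ≠ j) {p q : Pl} (hp : p ∈ Prod.snd '' S)
    (hq : q ∈ Prod.snd '' S) (hne : p ≠ q) : Disjoint (Ed i j p) (Ed i j q) := by
  rw [Set.disjoint_left]
  rintro x ⟨a1, a2, a3⟩ ⟨b1, b2, b3⟩
  apply hne
  obtain ⟨⟨l, p'⟩, hpS, rfl⟩ := hp
  obtain ⟨⟨l', q'⟩, hqS, rfl⟩ := hq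
  simp only at a1 a2 a3 b1 b2 b3 ⊢
  have hxq : x ∈ Sq q' := by
    have hj : q' j ≤ x j ∧ x j ≤ q' j + 1 := ⟨b2.le, b3.le⟩
    have hi : q' i ≤ x i ∧ x i ≤ q' i + 1 := ⟨by rw [b1]; linarith, by rw [b1]⟩
    fin_cases i <;> fin_cases j
    · simp at hij
    · exact ⟨hi, hj⟩
    · exact ⟨hj, hi⟩
    · simp at hij
  have bi : |x i - p' i| ≤ 2 := by rw [a1, abs_le]; constructor <;> linarith
  have bj : |x j - p' j| ≤ 2 := by rw [abs_le]; constructor <;> linarith
  obtain ⟨u, hu⟩ : ∃ u : ℤ × ℤ, q' = p' + io u := by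
    apply near_int hs hL (p := p') (q := q') ⟨l, hS hpS⟩ ⟨l', hS hqS⟩ hxq
    · fin_cases i <;> fin_cases j
      · simp at hij
      · exact bi
      · exact bj
      · simp at hij
    · fin_cases i <;> fin_cases j
      · simp at hij
      · exact bj
      · exact bi
      · simp at hij
  obtain ⟨n, hn, _⟩ := io_coord u i
  obtain ⟨m, hm, _⟩ := io_coord u j
  have e1 : (n : ℝ) = 0 := by
    rw [hu, PiLp.add_apply, hn] at b1
    linarith
  have e2 : m = 0 := by
    rw [hu, PiLp.add_apply, hm] at b2 b3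
    have m1 : (m : ℝ) < 1 := by linarith
    have m2 : (-1 : ℝ) < m := by linarith
    have m1' : m < 1 := by exact_mod_cast m1
    have m2' : -1 < m := by exact_mod_cast m2
    omega
  apply io_ext hij
  · rw [hu, PiLp.add_apply, hn, e1, add_zero]
  · rw [hu, PiLp.add_apply, hm, e2]; simp

theorem frontier_finite (hfin : S.Finite) :
    Measure.hausdorffMeasure 1 (frontier (sqs.region S)) < ⊤ := by
  have hsub : frontier (sqs.region S) ⊆ ⋃ t ∈ S, frontier (Sq t.2) := by
    have hclosed : IsClosed (sqs.region S) := by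
      unfold ProtoSet.region
      apply hfin.isClosed_biUnion
      intro t _
      rw [body_eq]
      exact Sq_closed _
    rw [hclosed.frontier_eq]
    rintro x ⟨hx1, hx2⟩
    unfold ProtoSet.region at hx1
    rw [Set.mem_iUnion₂] at hx1 ⊢
    obtain ⟨t, ht, hxt⟩ := hx1
    rw [body_eq] at hxt
    refine ⟨t, ht, ?_⟩
    rw [(Sq_closed _).frontier_eq]
    refine ⟨hxt, ?_⟩
    intro hint
    apply hx2
    refine interior_mono ?_ hint
    intro y hy
    unfold ProtoSet.region
    rw [Set.mem_iUnion₂]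
    exact ⟨t, ht, by rw [body_eq]; exact hy⟩
  refine lt_of_le_of_lt (measure_mono hsub) ?_
  exact measure_biUnion_lt_top hfin (fun t _ => Sq_boundary _)

open scoped Classical in
include hL hS in
theorem Bd_perim {i j : Fin 2} (hij : i ≠ j) (hfin : S.Finite) (S' : Finset Pl)
    (hS' : ∀ p, p ∈ S' ↔ p ∈ Prod.snd '' S) :
    ((Bd S' (io (uv i))).card : ℝ) ≤ ProtoSet.perimeter (sqs.region S) := by
  unfold ProtoSet.perimeter
  have e : ((2 : ℕ) : ℝ) - 1 = 1 := by norm_num
  rw [e]
  have h1 : ((Bd S' (io (uv i))).card : ENNReal) ≤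
      Measure.hausdorffMeasure 1 (frontier (sqs.region S)) := by
    calc ((Bd S' (io (uv i))).card : ENNReal) = ∑ p ∈ Bd S' (io (uv i)), (1 : ENNReal) := by simp
      _ ≤ ∑ p ∈ Bd S' (io (uv i)), Measure.hausdorffMeasure 1 (Ed i j p) :=
          Finset.sum_le_sum (fun p _ => Ed_measure hij p)
      _ = Measure.hausdorffMeasure 1 (⋃ p ∈ Bd S' (io (uv i)), Ed i j p) := by
          rw [measure_biUnion_finset]
          · intro p hp q hq hne
            rw [Finset.mem_coe, mem_Bd, hS'] at hp hq
            exact Ed_disjoint hs hL hS hij hp.1 hq.1 hne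
          · intro p _
            exact Ed_measurable i j p
      _ ≤ _ := by
          apply measure_mono
          intro x hx
          rw [Set.mem_iUnion₂] at hx
          obtain ⟨p, hp, hxp⟩ := hx
          rw [mem_Bd, hS', hS'] at hp
          exact Ed_frontier hs hL hS hij hp.1 hp.2 hfin hxp
  have h2 := ENNReal.toReal_mono (frontier_finite hfin).ne h1
  simpa using h2

include hN in
/-- the tiles of `P` in the region of `S` are those of `S` -/
theorem mem_of_region {S : Set sqs.Tile} (hS : S ⊆ P) {t : sqs.Tile} (ht : t ∈ P)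
    (hsub : sqs.body t ⊆ sqs.region S) : t ∈ S := by
  by_contra hcon
  rw [body_eq] at hsub
  have hx : t.2 + pt (1 / 2) (1 / 2) ∈ OSq t.2 := by
    refine ⟨⟨?_, ?_⟩, ?_, ?_⟩ <;> simp <;> norm_num
  have h1 := hsub (OSq_sub _ hx)
  unfold ProtoSet.region at h1
  rw [Set.mem_iUnion₂] at h1
  obtain ⟨σ, hσ, h2⟩ := h1
  rw [body_eq, ← Sq_regular, mem_closure_iff] at h2
  obtain ⟨y, hy1, hy2⟩ := h2 _ (OSq_open _) hx
  have hne : t ≠ σ := fun h => hcon (h ▸ hσ)
  have h3 := hN t ht σ (hS hσ) hne
  rw [body_eq, body_eq] at h3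
  rw [← interior_Sq] at hy1
  exact Set.disjoint_left.1 h3 hy1 hy2

include hN hS in
theorem vol_region (T : Finset sqs.Tile) (hT : ∀ t, t ∈ T ↔ t ∈ S) :
    ProtoSet.vol (sqs.region S) = T.card := by
  have h1 : volume (sqs.region S) = T.card := by
    apply le_antisymm
    · have : sqs.region S = ⋃ t ∈ T, Sq t.2 := by
        unfold ProtoSet.region
        ext x
        simp only [Set.mem_iUnion, exists_prop, hT, body_eq]
      rw [this]
      refine (measure_biUnion_finset_le _ _).trans ?_
      simp [Sq_volume]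
    · calc (T.card : ENNReal) = ∑ t ∈ T, volume (OSq t.2) := by simp [OSq_volume]
        _ = volume (⋃ t ∈ T, OSq t.2) := by
            rw [measure_biUnion_finset]
            · intro t ht t' ht' hne
              rw [Finset.mem_coe, hT] at ht ht'
              have := hN t (hS ht) t' (hS ht') hne
              rw [body_eq, body_eq, interior_Sq, interior_Sq] at this
              exact this
            · intro t _
              exact (OSq_open _).measurableSet
        _ ≤ _ := by
            apply measure_mono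
            intro x hx
            rw [Set.mem_iUnion₂] at hx
            obtain ⟨t, ht, hxt⟩ := hx
            unfold ProtoSet.region
            rw [Set.mem_iUnion₂]
            exact ⟨t, (hT t).1 ht, by rw [body_eq]; exact OSq_sub _ hxt⟩
  unfold ProtoSet.vol
  rw [h1]
  simp

end

end Pool.Agent.Helper42.Miek
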