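import Pool.Agent.Helper42.Miek.Tiling
import Pool.Agent.Helper42.Miek.Perim

set_option autoImplicit false

open MeasureTheory

namespace Pool.Agent.Helper42.Miek

section

variable {s : ℤ} (hs : 0 < s)

theorem int_of_dist {P : Set sqs.Tile} (hL : (rule s hs).Legal P) {σ τ : sqs.Tile} (hσ : σ ∈ P)
    (hτ : τ ∈ P) (h : dist σ.2 τ.2 ≤ 2 * (rho s : ℝ)) : ∃ u : ℤ × ℤ, σ.2 = τ.2 + io u := by
  obtain ⟨c, _, _, h1⟩ := legal_loc hL hτ
  obtain ⟨u, hu, _⟩ := h1 σ hσ ⟨σ.2, ⟨⟨le_refl _, by linarith⟩, le_refl _, by linarith⟩, h⟩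
  exact ⟨u, hu⟩

theorem patternCount_eq {P : Set sqs.Tile} (hN : sqs.NonOverlapping P) {S : Set sqs.Tile}
    (hS : S ⊆ P) (q : Set sqs.Tile) :
    sqs.patternCount P (sqs.region S) q =
      {v : Pl | ∀ t ∈ q, ((t.1, t.2 + v) : sqs.Tile) ∈ S}.ncard := by
  unfold ProtoSet.patternCount
  congr 1
  ext v
  constructor
  · intro h t ht
    have := h (t.1, t.2 + v) ⟨t, ht, rfl⟩
    exact mem_of_region hN hS this.1 this.2
  · rintro h t ⟨t', ht', rfl⟩
    have h1 := h t' ht'
    refine ⟨hS h1, ?_⟩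
    intro x hx
    unfold ProtoSet.region
    rw [Set.mem_iUnion₂]
    exact ⟨_, h1, hx⟩

open scoped Classical in
theorem main_pattern (q : Set sqs.Tile) (hqf : q.Finite) (hqn : q.Nonempty)
    (hq : ∀ t ∈ q, ∀ t' ∈ q, dist t.2 t'.2 < (s : ℝ)) :
    ∃ dens c : ℝ, ∀ P : Set sqs.Tile, sqs.NonOverlapping P → (rule s hs).Legal P → ∀ S ⊆ P,
      S.Finite → |(sqs.patternCount P (sqs.region S) q : ℝ) -
        dens * ProtoSet.vol (sqs.region S)| ≤ c * ProtoSet.perimeter (sqs.region S) := by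
  have hrho : (s : ℝ) ≤ 2 * (rho s : ℝ) := by
    have : s ≤ 2 * rho s := by
      unfold rho
      have := one_le_MM
      nlinarith
    exact_mod_cast this
  obtain ⟨t0, ht0⟩ := hqn
  by_cases hwf : (∀ t ∈ q, ∃ δ : ℤ × ℤ, t.2 = t0.2 + io δ) ∧
      (∀ t ∈ q, ∀ t' ∈ q, t.2 = t'.2 → t = t')
  · obtain ⟨hint, huniq⟩ := hwf
    -- the offsets
    have hinj : Function.Injective (fun δ : ℤ × ℤ => t0.2 + io δ) := by
      intro δ δ' h
      exact io_inj (add_left_cancel h)
    have hDf : {δ : ℤ × ℤ | ∃ l : Lab, ((l, t0.2 + io δ) : sqs.Tile) ∈ q}.Finite := by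
      have h1 : (Prod.snd '' q).Finite := hqf.image _
      have h2 := h1.preimage hinj.injOn
      apply h2.subset
      rintro δ ⟨l, hl⟩
      exact ⟨_, hl, rfl⟩
    set D : Finset (ℤ × ℤ) := hDf.toFinset with hD
    have hDmem : ∀ δ, δ ∈ D ↔ ∃ l : Lab, ((l, t0.2 + io δ) : sqs.Tile) ∈ q := by
      intro δ
      rw [hD, Set.Finite.mem_toFinset]
      rfl
    set f : ℤ × ℤ → Lab := fun δ => lab q (t0.2 + io δ) with hf
    have hfq : ∀ δ ∈ D, ((f δ, t0.2 + io δ) : sqs.Tile) ∈ q := by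
      intro δ hδ
      exact lab_mem ((hDmem δ).1 hδ)
    have h0 : (0 : ℤ × ℤ) ∈ D := by
      rw [hDmem, map_zero, add_zero]
      exact ⟨t0.1, ht0⟩
    have hdiff : ∀ δ ∈ D, ∀ δ' ∈ D, |δ.1 - δ'.1| < s ∧ |δ.2 - δ'.2| < s := by
      intro δ hδ δ' hδ'
      have h1 := hq _ (hfq δ hδ) _ (hfq δ' hδ')
      have c0 := lt_of_le_of_lt (dist_coord (t0.2 + io δ) (t0.2 + io δ') 0) h1
      have c1 := lt_of_le_of_lt (dist_coord (t0.2 + io δ) (t0.2 + io δ') 1) h1
      simp only [PiLp.add_apply, io_fst, io_snd, add_sub_add_left_eq_sub] at c0 c1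
      exact ⟨by exact_mod_cast c0, by exact_mod_cast c1⟩
    obtain ⟨d, C, hC, hdC⟩ := pattern_discr hs D f h0 hdiff
    refine ⟨d, C * ((2 * (rho s : ℝ) + 1) ^ 2 * 4), ?_⟩
    intro P hN hL S hS hSf
    set T : Finset sqs.Tile := hSf.toFinset with hT
    have hTmem : ∀ t, t ∈ T ↔ t ∈ S := fun t => by rw [hT, Set.Finite.mem_toFinset]
    set S' : Finset Pl := T.image Prod.snd with hS'
    have hS'mem : ∀ p, p ∈ S' ↔ p ∈ Prod.snd '' S := by
      intro p
      rw [hS', Finset.mem_image]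
      constructor
      · rintro ⟨t, ht, h⟩; exact ⟨t, (hTmem t).1 ht, h⟩
      · rintro ⟨t, ht, h⟩; exact ⟨t, (hTmem t).2 ht, h⟩
    have hS'P : ∀ p ∈ S', p ∈ Pos P := by
      intro p hp
      rw [hS'mem] at hp
      obtain ⟨t, ht, rfl⟩ := hp
      exact ⟨t.1, hS ht⟩
    have hlabS : ∀ t ∈ S, lab P t.2 = t.1 := fun t ht => lab_unique hs hL (hS ht)
    have hcard : S'.card = T.card := by
      rw [hS']
      apply Finset.card_image_of_injOn
      intro t ht t' ht' h
      rw [Finset.mem_coe, hTmem] at ht ht'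
      apply Prod.ext
      · rw [← hlabS t ht, ← hlabS t' ht', h]
      · exact h
    have hmemS : ∀ l : Lab, ∀ p : Pl, ((l, p) : sqs.Tile) ∈ S ↔ p ∈ S' ∧ lab P p = l := by
      intro l p
      constructor
      · intro h
        exact ⟨(hS'mem p).2 ⟨_, h, rfl⟩, hlabS _ h⟩
      · rintro ⟨h1, h2⟩
        rw [hS'mem] at h1
        obtain ⟨t, ht, rfl⟩ := h1
        have h3 := hlabS t ht
        have : ((l, t.2) : sqs.Tile) = t := Prod.ext (by rw [← h2, h3]) rfl
        rw [this]
        exact ht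
    -- the count
    have hcount : sqs.patternCount P (sqs.region S) q =
        (S'.filter (fun p => ∀ δ ∈ D, p + io δ ∈ S' ∧ lab P (p + io δ) = f δ)).card := by
      rw [patternCount_eq hN hS]
      have hset : {v : Pl | ∀ t ∈ q, ((t.1, t.2 + v) : sqs.Tile) ∈ S} =
          (fun p => p - t0.2) '' (S'.filter (fun p => ∀ δ ∈ D, p + io δ ∈ S' ∧
            lab P (p + io δ) = f δ) : Finset Pl) := by
        ext v
        constructor
        · intro h
          refine ⟨t0.2 + v, ?_, by simp⟩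
          rw [Finset.mem_coe, Finset.mem_filter]
          refine ⟨((hmemS _ _).1 (h t0 ht0)).1, ?_⟩
          intro δ hδ
          have h1 := h _ (hfq δ hδ)
          have h2 := (hmemS _ _).1 h1
          have e : t0.2 + v + io δ = t0.2 + io δ + v := by abel
          rw [e]
          exact h2
        · rintro ⟨p, hp, rfl⟩ t ht
          rw [Finset.mem_coe, Finset.mem_filter] at hp
          obtain ⟨δ, hδ⟩ := hint t ht
          have hδD : δ ∈ D := by
            rw [hDmem]
            exact ⟨t.1, by rw [← hδ]; exact ht⟩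
          have h1 := hp.2 δ hδD
          have h2 : t = ((f δ, t0.2 + io δ) : sqs.Tile) := huniq t ht _ (hfq δ hδD) hδ
          have h3 : t.1 = f δ := by rw [h2]
          rw [hmemS]
          have e : t.2 + (p - t0.2) = p + io δ := by rw [hδ]; abel
          rw [e, h3]
          exact h1
      rw [hset, Set.ncard_image_of_injective _ (sub_left_injective), Set.ncard_coe_finset]
    have hvol : ProtoSet.vol (sqs.region S) = S'.card := by
      rw [vol_region hN hS T hTmem, hcard]
    have h1 : |((S'.filter (fun p => ∀ δ ∈ D, p + io δ ∈ S' ∧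
        lab P (p + io δ) = f δ)).card : ℝ) - d * S'.card| ≤ C * (Near io (rho s) S').card := by
      have h1' := hdC io (rho s) (Pos P) (lab P) (loc_of_legal hs hL)
        (by unfold rho; have := one_le_MM; nlinarith) S' hS'P
      convert h1'
    have h2 := near_bound io (rho s) (rho_pos hs).le S'
    have h3 := Bd_perim hs hL hS (i := 0) (j := 1) (by decide) hSf S' hS'mem
    have h4 := Bd_perim hs hL hS (i := 1) (j := 0) (by decide) hSf S' hS'mem
    have u0 : uv 0 = (1, 0) := rfl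
    have u1 : uv 1 = (0, 1) := rfl
    rw [u0] at h3
    rw [u1] at h4
    have h2' : ((Near io (rho s) S').card : ℝ) ≤ (2 * (rho s : ℝ) + 1) ^ 2 *
        (2 * (((Bd S' (io (1, 0))).card : ℝ) + (Bd S' (io (0, 1))).card)) := by exact_mod_cast h2
    rw [hcount, hvol]
    refine h1.trans ?_
    rw [mul_assoc]
    apply mul_le_mul_of_nonneg_left _ hC
    refine h2'.trans ?_
    rw [mul_assoc]
    apply mul_le_mul_of_nonneg_left _ (by positivity)
    linarith
  · refine ⟨0, 0, ?_⟩
    intro P hN hL S hS hSf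
    have hempty : {v : Pl | ∀ t ∈ q, ((t.1, t.2 + v) : sqs.Tile) ∈ S} = ∅ := by
      rw [Set.eq_empty_iff_forall_notMem]
      intro v hv
      apply hwf
      have hv' : ∀ t ∈ q, ((t.1, t.2 + v) : sqs.Tile) ∈ S := hv
      constructor
      · intro t ht
        obtain ⟨u, hu⟩ := int_of_dist hs hL (hS (hv' t ht)) (hS (hv' t0 ht0)) (by
          simp only [dist_add_right]
          have := hq t ht t0 ht0
          linarith)
        refine ⟨u, ?_⟩
        simp only at hu
        have e : t.2 = t.2 + v - v := by abel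
        rw [e, hu]
        abel
      · intro t ht t' ht' h
        have h1 := lab_unique hs hL (hS (hv' t ht))
        have h2 := lab_unique hs hL (hS (hv' t' ht'))
        rw [h] at h1
        exact Prod.ext (h1.symm.trans h2) h
    rw [patternCount_eq hN hS, hempty]
    simp

theorem count_eq (P : Set sqs.Tile) (R : Set Pl) (i : Lab) :
    sqs.count P R i = sqs.patternCount P R {((i, 0) : sqs.Tile)} := by
  unfold ProtoSet.count ProtoSet.patternCount
  have hset : {t : sqs.Tile | t ∈ P ∧ sqs.body t ⊆ R ∧ t.1 = i} =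
      (fun v : Pl => ((i, v) : sqs.Tile)) ''
        {v : Pl | ∀ t ∈ sqs.translate v {((i, 0) : sqs.Tile)}, t ∈ P ∧ sqs.body t ⊆ R} := by
    ext t
    constructor
    · rintro ⟨h1, h2, h3⟩
      refine ⟨t.2, ?_, Prod.ext h3.symm rfl⟩
      rintro t' ⟨t'', ht'', rfl⟩
      rw [Set.mem_singleton_iff] at ht''
      subst ht''
      have e : ((i, 0 + t.2) : sqs.Tile) = t := Prod.ext h3.symm (zero_add _)
      change ((i, 0 + t.2) : sqs.Tile) ∈ P ∧ sqs.body ((i, 0 + t.2) : sqs.Tile) ⊆ R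
      rw [e]
      exact ⟨h1, h2⟩
    · rintro ⟨v, hv, rfl⟩
      have h := hv (i, v) ⟨(i, 0), rfl, Prod.ext rfl (zero_add _)⟩
      exact ⟨h.1, h.2, rfl⟩
  rw [hset, Set.ncard_image_of_injective]
  intro v w h
  exact (Prod.mk.injEq _ _ _ _ ▸ h).2

end

theorem main_theorem (k : ℕ) : ∃ (F : ProtoSet 2) (M : F.MatchingRule),
    (∃ T : Set F.Tile, F.IsTiling T ∧ M.Legal T) ∧
    (∀ T : Set F.Tile, F.IsTiling T → M.Legal T → ∀ v : Sp 2, v ≠ 0 → F.translate v T ≠ T) ∧
    (∃ dens c : F.ι → ℝ, M.CondA dens c ∧ M.CondB dens c) ∧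
    (∀ q : Set F.Tile, q.Finite → q.Nonempty →
      (∀ x ∈ F.region q, ∀ y ∈ F.region q, dist x y ≤ k) →
      ∃ dens c : ℝ, M.PatternA q dens c ∧ M.PatternB q dens c) := by
  have hs : (0 : ℤ) < (k : ℤ) + 1 := by positivity
  refine ⟨sqs, rule ((k : ℤ) + 1) hs, ⟨Til _, Til_tiling _, Til_legal hs⟩, ?_, ?_, ?_⟩
  · intro T hT hL v hv
    exact no_period hT hL v hv
  · have h1 : ∀ i : Lab, ∃ dens c : ℝ, ∀ P : Set sqs.Tile, sqs.NonOverlapping P →
        (rule ((k : ℤ) + 1) hs).Legal P → ∀ S ⊆ P, S.Finite →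
        |(sqs.patternCount P (sqs.region S) {((i, 0) : sqs.Tile)} : ℝ) -
        dens * ProtoSet.vol (sqs.region S)| ≤ c * ProtoSet.perimeter (sqs.region S) := by
      intro i
      apply main_pattern hs _ (Set.finite_singleton _) (Set.singleton_nonempty _)
      intro t ht t' ht'
      rw [Set.mem_singleton_iff] at ht ht'
      rw [ht, ht', dist_self]
      exact_mod_cast hs
    choose dens c h2 using h1
    refine ⟨dens, c, ?_, ?_⟩
    · intro T hT hL S hS hSf i
      rw [count_eq]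
      exact h2 i T hT.1 hL S hS hSf
    · intro P hP hL S hS i
      rw [count_eq]
      exact h2 i P hP.2 hL S hS (hP.1.subset hS)
  · intro q hqf hqn hq
    obtain ⟨dens, c, h⟩ := main_pattern hs q hqf hqn (by
      intro t ht t' ht'
      have h1 : t.2 ∈ sqs.region q := by
        unfold ProtoSet.region
        rw [Set.mem_iUnion₂]
        refine ⟨t, ht, ?_⟩
        rw [body_eq]
        exact ⟨⟨le_refl _, by linarith⟩, le_refl _, by linarith⟩
      have h2 : t'.2 ∈ sqs.region q := by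
        unfold ProtoSet.region
        rw [Set.mem_iUnion₂]
        refine ⟨t', ht', ?_⟩
        rw [body_eq]
        exact ⟨⟨le_refl _, by linarith⟩, le_refl _, by linarith⟩
      have h3 := hq _ h1 _ h2
      push_cast
      linarith)
    refine ⟨dens, c, ?_, ?_⟩
    · intro T hT hL S hS hSf
      exact h T hT.1 hL S hS hSf
    · intro P hP hL S hS
      exact h P hP.2 hL S hS (hP.1.subset hS)

end Pool.Agent.Helper42.Miek
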