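import Pool.Agent.Helper42.Miek.Count

set_option autoImplicit false

namespace Pool.Agent.Helper42.Miek

open Finset

section

variable {V : Type} [AddCommGroup V] {io : ℤ × ℤ →+ V} {k : ℤ} (hk : 0 < k)
  {ρ : ℤ} {P : Set V} {lab : V → Lab} (hloc : Loc io k ρ P lab) (hρ : k * MM ≤ ρ)
  {S : Finset V} (hS : ∀ p ∈ S, p ∈ P)

include hk hloc hρ hS

/-- nonblank tiles are well separated -/
theorem separated {p : V} (hp : p ∈ S) {δ : ℤ × ℤ} (hpδ : p + io δ ∈ S) (h1 : |δ.1| < k)
    (h2 : |δ.2| < k) (hne : δ ≠ 0) (h3 : lab p ≠ none) : lab (p + io δ) = none := by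
  have hkM := k_le hk
  obtain ⟨c, ⟨t, ht, x0, y0, hc⟩, h0, hv⟩ := hloc p (hS p hp)
  have h4 := hv δ.1 δ.2 (by omega) (by omega) (hS _ hpδ)
  have h4' : lab (p + io δ) = c δ.1 δ.2 := h4
  rw [h4']
  by_contra hcon
  rw [hc, ← ne_eq, enc_ne_none] at hcon
  rw [← h0, hc, enc_ne_none, zero_add, zero_add] at h3
  apply hne
  have h5 : k ∣ δ.1 := (Int.dvd_add_left h3.1).1 hcon.1
  have h6 : k ∣ δ.2 := (Int.dvd_add_left h3.2).1 hcon.2
  exact Prod.ext (Int.eq_zero_of_abs_lt_dvd h5 h1) (Int.eq_zero_of_abs_lt_dvd h6 h2)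

open scoped Classical in
theorem nonblank_discr :
    |((S.filter (fun p => lab p ≠ none)).card : ℝ) - (Fintype.card (Option W) : ℝ) *
      (S.card / ((k : ℝ) * MM * k))| ≤ (Fintype.card (Option W) : ℝ) * (Near io ρ S).card := by
  have h1 : (S.filter (fun p => lab p ≠ none)).card =
      ∑ o : Option W, (S.filter (fun p => lab p = some o)).card := by
    rw [← card_biUnion]
    · congr 1
      ext p
      rw [mem_filter, mem_biUnion]
      constructor
      · rintro ⟨hp, h⟩
        rw [Option.ne_none_iff_exists'] at h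
        obtain ⟨o, ho⟩ := h
        exact ⟨o, mem_univ _, by rw [mem_filter]; exact ⟨hp, ho⟩⟩
      · rintro ⟨o, _, h⟩
        rw [mem_filter] at h
        exact ⟨h.1, by rw [h.2]; simp⟩
    · intro o _ o' _ hne
      rw [Function.onFun, disjoint_left]
      intro p hp hp'
      rw [mem_filter] at hp hp'
      apply hne
      have := hp.2.symm.trans hp'.2
      exact Option.some.inj this
  rw [h1]
  push_cast
  have h2 : (∑ o : Option W, ((S.filter (fun p => lab p = some o)).card : ℝ)) -
      (Fintype.card (Option W) : ℝ) * (S.card / ((k : ℝ) * MM * k)) =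
      ∑ o : Option W, (((S.filter (fun p => lab p = some o)).card : ℝ) -
        S.card / ((k : ℝ) * MM * k)) := by
    rw [sum_sub_distrib]
    simp
  rw [h2]
  refine (abs_sum_le_sum_abs _ _).trans ?_
  refine (sum_le_sum (fun o _ => label_discr hk hloc hρ hS o)).trans ?_
  simp

variable {D : Finset (ℤ × ℤ)} {f : ℤ × ℤ → Lab} (h0 : (0 : ℤ × ℤ) ∈ D)
  (hD : ∀ δ ∈ D, ∀ δ' ∈ D, |δ.1 - δ'.1| < k ∧ |δ.2 - δ'.2| < k)

open scoped Classical in
include hD in
omit hloc hS in
theorem not_near_mem {p : V} (hp : p ∈ S) (hn : p ∉ Near io ρ S) {δ δ' : ℤ × ℤ} (hδ : δ ∈ D)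
    (hδ' : δ' ∈ D) : p - io δ' + io δ ∈ S := by
  have hkM := k_le hk
  rw [mem_Near] at hn
  push Not at hn
  have h1 := hD δ hδ δ' hδ'
  have h2 := hn hp (δ.1 - δ'.1) (δ.2 - δ'.2) (by omega) (by omega)
  have e : ((δ.1 - δ'.1, δ.2 - δ'.2) : ℤ × ℤ) = δ - δ' := rfl
  rw [e, map_sub] at h2
  have e2 : p - io δ' + io δ = p + (io δ - io δ') := by abel
  rw [e2]
  exact h2

open scoped Classical in
include hD h0 in
/-- patterns with exactly one nonblank tile -/
theorem pattern_one {δ0 : ℤ × ℤ} (hδ0 : δ0 ∈ D) {o : Option W} (hf0 : f δ0 = some o)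
    (hf : ∀ δ ∈ D, δ ≠ δ0 → f δ = none) :
    |((S.filter (fun p => ∀ δ ∈ D, p + io δ ∈ S ∧ lab (p + io δ) = f δ)).card : ℝ) -
      ((S.filter (fun p => lab p = some o)).card : ℝ)| ≤ (Near io ρ S).card := by
  set O := S.filter (fun p => ∀ δ ∈ D, p + io δ ∈ S ∧ lab (p + io δ) = f δ) with hO
  set A := S.filter (fun p => lab p = some o) with hA
  have h1 : O.card ≤ A.card := by
    apply card_le_card_of_injOn (fun p => p + io δ0)
    · intro p hp
      rw [mem_coe, hO, mem_filter] at hp
      rw [mem_coe, hA, mem_filter]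
      have := hp.2 δ0 hδ0
      exact ⟨this.1, by rw [this.2, hf0]⟩
    · intro p _ q _ h
      exact add_right_cancel h
  have h2 : A.card ≤ O.card + (Near io ρ S).card := by
    have hsub : A ⊆ O.image (fun p => p + io δ0) ∪ Near io ρ S := by
      intro p hp
      rw [hA, mem_filter] at hp
      rw [mem_union]
      by_cases hn : p ∈ Near io ρ S
      · exact Or.inr hn
      · left
        rw [mem_image]
        refine ⟨p - io δ0, ?_, by abel⟩
        rw [hO, mem_filter]
        have hm : ∀ δ ∈ D, p - io δ0 + io δ ∈ S := fun δ hδ =>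
          not_near_mem hk hρ hD hp.1 hn hδ hδ0
        refine ⟨?_, ?_⟩
        · have := hm 0 h0
          rwa [map_zero, add_zero] at this
        · intro δ hδ
          refine ⟨hm δ hδ, ?_⟩
          by_cases he : δ = δ0
          · subst he
            rw [sub_add_cancel, hf0]
            exact hp.2
          · rw [hf δ hδ he]
            have e : p - io δ0 + io δ = p + io (δ - δ0) := by
              rw [map_sub]; abel
            rw [e]
            have h5 := hD δ hδ δ0 hδ0
            refine separated hk hloc hρ hS hp.1 ?_ h5.1 h5.2 (sub_ne_zero.2 he) ?_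
            · rw [← e]; exact hm δ hδ
            · rw [hp.2]; simp
    calc _ ≤ _ := card_le_card hsub
      _ ≤ _ := card_union_le _ _
      _ ≤ _ := Nat.add_le_add_right card_image_le _
  have h1' : (O.card : ℝ) ≤ A.card := by exact_mod_cast h1
  have h2' : (A.card : ℝ) ≤ O.card + (Near io ρ S).card := by exact_mod_cast h2
  rw [abs_le]
  constructor <;> linarith [(Nat.cast_nonneg (Near io ρ S).card : (0 : ℝ) ≤ _)]

open scoped Classical in
include hD h0 in
/-- patterns all of whose tiles are blank -/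
theorem pattern_blank (hf : ∀ δ ∈ D, f δ = none) :
    |((S.filter (fun p => ∀ δ ∈ D, p + io δ ∈ S ∧ lab (p + io δ) = f δ)).card : ℝ) -
      (S.card - (D.card : ℝ) * (S.filter (fun p => lab p ≠ none)).card)| ≤
      ((D.card : ℝ) + 1) * (Near io ρ S).card := by
  set O := S.filter (fun p => ∀ δ ∈ D, p + io δ ∈ S ∧ lab (p + io δ) = f δ) with hO
  set B := S.filter (fun p => lab p ≠ none) with hB
  set U := S.filter (fun p => ∀ δ ∈ D, p + io δ ∈ S) with hU
  -- `U` is almost `S`
  have u1 : U.card ≤ S.card := card_le_card (filter_subset _ _)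
  have u2 : S.card ≤ U.card + (Near io ρ S).card := by
    have hsub : S ⊆ U ∪ Near io ρ S := by
      intro p hp
      rw [mem_union]
      by_cases hn : p ∈ Near io ρ S
      · exact Or.inr hn
      · left
        rw [hU, mem_filter]
        refine ⟨hp, ?_⟩
        intro δ hδ
        have := not_near_mem hk hρ hD hp hn hδ h0
        rwa [map_zero, sub_zero] at this
    exact (card_le_card hsub).trans (card_union_le _ _)
  -- the exceptional sets
  have hNB : ∀ δ ∈ D, (U.filter (fun p => lab (p + io δ) ≠ none)).card ≤ B.card ∧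
      B.card ≤ (U.filter (fun p => lab (p + io δ) ≠ none)).card + (Near io ρ S).card := by
    intro δ hδ
    constructor
    · apply card_le_card_of_injOn (fun p => p + io δ)
      · intro p hp
        rw [mem_coe, mem_filter, hU, mem_filter] at hp
        rw [mem_coe, hB, mem_filter]
        exact ⟨hp.1.2 δ hδ, hp.2⟩
      · intro p _ q _ h
        exact add_right_cancel h
    · have hsub : B ⊆ (U.filter (fun p => lab (p + io δ) ≠ none)).image (fun p => p + io δ) ∪
          Near io ρ S := by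
        intro p hp
        rw [hB, mem_filter] at hp
        rw [mem_union]
        by_cases hn : p ∈ Near io ρ S
        · exact Or.inr hn
        · left
          rw [mem_image]
          refine ⟨p - io δ, ?_, by abel⟩
          have hm : ∀ δ' ∈ D, p - io δ + io δ' ∈ S := fun δ' hδ' =>
            not_near_mem hk hρ hD hp.1 hn hδ' hδ
          rw [mem_filter, hU, mem_filter]
          refine ⟨⟨?_, hm⟩, ?_⟩
          · have := hm 0 h0
            rwa [map_zero, add_zero] at this
          · rw [sub_add_cancel]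
            exact hp.2
      calc _ ≤ _ := card_le_card hsub
        _ ≤ _ := card_union_le _ _
        _ ≤ _ := Nat.add_le_add_right card_image_le _
  have hsplit : U.card = O.card + ∑ δ ∈ D, (U.filter (fun p => lab (p + io δ) ≠ none)).card := by
    have e1 : U = O ∪ D.biUnion (fun δ => U.filter (fun p => lab (p + io δ) ≠ none)) := by
      ext p
      rw [mem_union, mem_biUnion]
      constructor
      · intro hp
        by_cases hall : ∀ δ ∈ D, lab (p + io δ) = none
        · left
          rw [hU, mem_filter] at hp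
          rw [hO, mem_filter]
          refine ⟨hp.1, ?_⟩
          intro δ hδ
          exact ⟨hp.2 δ hδ, by rw [hall δ hδ, hf δ hδ]⟩
        · right
          push Not at hall
          obtain ⟨δ, hδ, h⟩ := hall
          exact ⟨δ, hδ, by rw [mem_filter]; exact ⟨hp, h⟩⟩
      · rintro (hp | ⟨δ, hδ, hp⟩)
        · rw [hO, mem_filter] at hp
          rw [hU, mem_filter]
          exact ⟨hp.1, fun δ hδ => (hp.2 δ hδ).1⟩
        · exact (mem_filter.1 hp).1
    conv_lhs => rw [e1]
    rw [card_union_of_disjoint, card_biUnion]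
    · intro δ hδ δ' hδ' hne
      rw [Function.onFun, disjoint_left]
      intro p hp hp'
      rw [mem_filter] at hp hp'
      have hpU := hp.1
      rw [hU, mem_filter] at hpU
      have e : p + io δ' = (p + io δ) + io (δ' - δ) := by
        rw [map_sub]; abel
      have h5 := hD δ' hδ' δ hδ
      apply hp'.2
      rw [e]
      refine separated hk hloc hρ hS (hpU.2 δ hδ) ?_ h5.1 h5.2 (sub_ne_zero.2 hne.symm) hp.2
      rw [← e]
      exact hpU.2 δ' hδ'
    · rw [disjoint_left]
      intro p hp hp'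
      rw [mem_biUnion] at hp'
      obtain ⟨δ, hδ, h⟩ := hp'
      rw [mem_filter] at h
      rw [hO, mem_filter] at hp
      apply h.2
      rw [(hp.2 δ hδ).2, hf δ hδ]
  have hs1 : (∑ δ ∈ D, ((U.filter (fun p => lab (p + io δ) ≠ none)).card : ℝ)) ≤
      D.card * B.card := by
    refine (sum_le_sum (g := fun _ => (B.card : ℝ)) ?_).trans (by simp)
    intro δ hδ
    exact_mod_cast (hNB δ hδ).1
  have hs2 : (D.card : ℝ) * B.card ≤
      (∑ δ ∈ D, ((U.filter (fun p => lab (p + io δ) ≠ none)).card : ℝ)) +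
        D.card * (Near io ρ S).card := by
    have : (∑ δ ∈ D, (B.card : ℝ)) ≤
        ∑ δ ∈ D, (((U.filter (fun p => lab (p + io δ) ≠ none)).card : ℝ) +
          (Near io ρ S).card) := by
      apply sum_le_sum
      intro δ hδ
      exact_mod_cast (hNB δ hδ).2
    rw [sum_add_distrib] at this
    simpa using this
  have hsplit' : (U.card : ℝ) = O.card +
      ∑ δ ∈ D, ((U.filter (fun p => lab (p + io δ) ≠ none)).card : ℝ) := by
    rw [hsplit]; push_cast; ring
  have u1' : (U.card : ℝ) ≤ S.card := by exact_mod_cast u1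
  have u2' : (S.card : ℝ) ≤ U.card + (Near io ρ S).card := by exact_mod_cast u2
  have hN : (0 : ℝ) ≤ (Near io ρ S).card := Nat.cast_nonneg _
  have hDN : (0 : ℝ) ≤ (D.card : ℝ) * (Near io ρ S).card := by positivity
  rw [abs_le]
  constructor <;> linarith

open scoped Classical in
include hD in
/-- patterns with at least two nonblank tiles do not occur -/
theorem pattern_two {δ0 δ1 : ℤ × ℤ} (hδ0 : δ0 ∈ D) (hδ1 : δ1 ∈ D) (hne : δ0 ≠ δ1)
    (hf0 : f δ0 ≠ none) (hf1 : f δ1 ≠ none) :
    (S.filter (fun p => ∀ δ ∈ D, p + io δ ∈ S ∧ lab (p + io δ) = f δ)) = ∅ := by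
  rw [filter_eq_empty_iff]
  intro p hp h
  obtain ⟨a1, a2⟩ := h δ0 hδ0
  obtain ⟨b1, b2⟩ := h δ1 hδ1
  have e : p + io δ1 = (p + io δ0) + io (δ1 - δ0) := by
    rw [map_sub]; abel
  have h5 := hD δ1 hδ1 δ0 hδ0
  apply hf1
  rw [← b2, e]
  refine separated hk hloc hρ hS a1 ?_ h5.1 h5.2 (sub_ne_zero.2 hne.symm) (by rw [a2]; exact hf0)
  rw [← e]
  exact b1

end

open scoped Classical in
/-- perimeter-type bound for all small patterns -/
theorem pattern_discr {k : ℤ} (hk : 0 < k) (D : Finset (ℤ × ℤ)) (f : ℤ × ℤ → Lab)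
    (h0 : (0 : ℤ × ℤ) ∈ D) (hD : ∀ δ ∈ D, ∀ δ' ∈ D, |δ.1 - δ'.1| < k ∧ |δ.2 - δ'.2| < k) :
    ∃ d C : ℝ, 0 ≤ C ∧ ∀ {V : Type} [AddCommGroup V] (io : ℤ × ℤ →+ V) (ρ : ℤ) (P : Set V)
      (lab : V → Lab) (_ : Loc io k ρ P lab) (_ : k * MM ≤ ρ) (S : Finset V)
      (_ : ∀ p ∈ S, p ∈ P),
      |((S.filter (fun p => ∀ δ ∈ D, p + io δ ∈ S ∧ lab (p + io δ) = f δ)).card : ℝ) -
        d * S.card| ≤ C * (Near io ρ S).card := by
  by_cases hb : ∀ δ ∈ D, f δ = none
  · refine ⟨1 - (D.card : ℝ) * ((Fintype.card (Option W) : ℝ) / ((k : ℝ) * MM * k)),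
      (D.card : ℝ) + 1 + (D.card : ℝ) * (Fintype.card (Option W) : ℝ), by positivity, ?_⟩
    intro V _ io ρ P lab hloc hρ S hS
    have h1 := pattern_blank hk hloc hρ hS h0 hD hb
    have h2 := nonblank_discr hk hloc hρ hS
    set N := ((Near io ρ S).card : ℝ)
    set O := ((S.filter (fun p => ∀ δ ∈ D, p + io δ ∈ S ∧ lab (p + io δ) = f δ)).card : ℝ)
    set B := ((S.filter (fun p => lab p ≠ none)).card : ℝ)
    set c := (Fintype.card (Option W) : ℝ)
    set q := (k : ℝ) * MM * k
    have h3 : O - (1 - (D.card : ℝ) * (c / q)) * S.card =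
        (O - (S.card - (D.card : ℝ) * B)) - (D.card : ℝ) * (B - c * (S.card / q)) := by
      ring
    rw [h3]
    refine (abs_sub _ _).trans ?_
    rw [abs_mul, abs_of_nonneg (by positivity : (0 : ℝ) ≤ (D.card : ℝ))]
    have h4 := mul_le_mul_of_nonneg_left h2 (by positivity : (0 : ℝ) ≤ (D.card : ℝ))
    calc _ ≤ ((D.card : ℝ) + 1) * N + (D.card : ℝ) * (c * N) := add_le_add h1 h4
      _ = _ := by ring
  · push Not at hb
    obtain ⟨δ0, hδ0, hf0⟩ := hb
    obtain ⟨o, ho⟩ := Option.ne_none_iff_exists'.1 hf0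
    by_cases hone : ∀ δ ∈ D, δ ≠ δ0 → f δ = none
    · refine ⟨1 / ((k : ℝ) * MM * k), 2, by norm_num, ?_⟩
      intro V _ io ρ P lab hloc hρ S hS
      have h1 := pattern_one hk hloc hρ hS h0 hD hδ0 ho hone
      have h2 := label_discr hk hloc hρ hS o
      rw [abs_le] at *
      have e : 1 / ((k : ℝ) * MM * k) * S.card = S.card / ((k : ℝ) * MM * k) := by ring
      rw [e]
      constructor <;> linarith [h1.1, h1.2, h2.1, h2.2]
    · push Not at hone
      obtain ⟨δ1, hδ1, hne, hf1⟩ := hone
      refine ⟨0, 0, le_rfl, ?_⟩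
      intro V _ io ρ P lab hloc hρ S hS
      rw [pattern_two hk hloc hρ hS hD hδ0 hδ1 hne.symm hf0 hf1]
      simp

end Pool.Agent.Helper42.Miek
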