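import Pool.Agent.Helper42.Miek.Defs

set_option autoImplicit false

open MeasureTheory

namespace Pool.Agent.Helper42.Miek

/-- the plane -/
abbrev Pl : Type := Sp 2

/-- coordinates of a point -/
noncomputable def pt (a b : ℝ) : Pl := WithLp.toLp 2 ![a, b]

@[simp] theorem pt_zero (a b : ℝ) : pt a b 0 = a := rfl
@[simp] theorem pt_one (a b : ℝ) : pt a b 1 = b := rfl

theorem pl_ext {x y : Pl} (h0 : x 0 = y 0) (h1 : x 1 = y 1) : x = y := by
  ext i
  fin_cases i
  · exact h0
  · exact h1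

/-- the inclusion of the integer lattice -/
noncomputable def io : ℤ × ℤ →+ Pl where
  toFun u := pt u.1 u.2
  map_zero' := by
    apply pl_ext
    · simp
    · simp
  map_add' u v := by
    apply pl_ext
    · change ((u.1 + v.1 : ℤ) : ℝ) = _
      simp
    · change ((u.2 + v.2 : ℤ) : ℝ) = _
      simp

@[simp] theorem io_fst (u : ℤ × ℤ) : io u 0 = u.1 := rfl
@[simp] theorem io_snd (u : ℤ × ℤ) : io u 1 = u.2 := rfl

theorem io_inj {u v : ℤ × ℤ} (h : io u = io v) : u = v := by
  have h0 := congrArg (fun x : Pl => x 0) h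
  have h1 := congrArg (fun x : Pl => x 1) h
  simp only [io_fst, io_snd] at h0 h1
  exact Prod.ext (by exact_mod_cast h0) (by exact_mod_cast h1)

/-- the unit square at `p` -/
def Sq (p : Pl) : Set Pl := {x | (p 0 ≤ x 0 ∧ x 0 ≤ p 0 + 1) ∧ (p 1 ≤ x 1 ∧ x 1 ≤ p 1 + 1)}

/-- the open unit square at `p` -/
def OSq (p : Pl) : Set Pl := {x | (p 0 < x 0 ∧ x 0 < p 0 + 1) ∧ (p 1 < x 1 ∧ x 1 < p 1 + 1)}

theorem cont (i : Fin 2) : Continuous (fun x : Pl => x i) := by fun_prop

theorem Sq_closed (p : Pl) : IsClosed (Sq p) := by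
  have h0 := cont 0
  have h1 := cont 1
  refine IsClosed.inter (IsClosed.inter ?_ ?_) (IsClosed.inter ?_ ?_)
  · exact isClosed_le continuous_const h0
  · exact isClosed_le h0 continuous_const
  · exact isClosed_le continuous_const h1
  · exact isClosed_le h1 continuous_const

theorem OSq_open (p : Pl) : IsOpen (OSq p) := by
  have h0 := cont 0
  have h1 := cont 1
  refine IsOpen.inter (IsOpen.inter ?_ ?_) (IsOpen.inter ?_ ?_)
  · exact isOpen_lt continuous_const h0
  · exact isOpen_lt h0 continuous_const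
  · exact isOpen_lt continuous_const h1
  · exact isOpen_lt h1 continuous_const

theorem OSq_sub (p : Pl) : OSq p ⊆ Sq p := by
  intro x hx
  exact ⟨⟨hx.1.1.le, hx.1.2.le⟩, ⟨hx.2.1.le, hx.2.2.le⟩⟩

theorem Sq_convex (p : Pl) : Convex ℝ (Sq p) := by
  intro x hx y hy a b ha hb hab
  obtain ⟨⟨x1, x2⟩, x3, x4⟩ := hx
  obtain ⟨⟨y1, y2⟩, y3, y4⟩ := hy
  have e0 : (a • x + b • y) 0 = a * x 0 + b * y 0 := by simp
  have e1 : (a • x + b • y) 1 = a * x 1 + b * y 1 := by simp
  unfold Sq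
  rw [Set.mem_ofPred_eq, e0, e1]
  have hb' : b = 1 - a := by linarith
  subst hb'
  refine ⟨⟨?_, ?_⟩, ⟨?_, ?_⟩⟩
  · nlinarith
  · nlinarith
  · nlinarith
  · nlinarith

theorem dist_coord (x y : Pl) (i : Fin 2) : |x i - y i| ≤ dist x y := by
  rw [dist_eq_norm]
  have := PiLp.norm_apply_le (x - y) i
  simpa using this

theorem dist_le_coords (x y : Pl) : dist x y ≤ |x 0 - y 0| + |x 1 - y 1| := by
  rw [EuclideanSpace.dist_eq, Fin.sum_univ_two, Real.dist_eq, Real.dist_eq]
  apply Real.sqrt_le_iff.2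
  refine ⟨by positivity, ?_⟩
  nlinarith [abs_nonneg (x 0 - y 0), abs_nonneg (x 1 - y 1)]

theorem interior_Sq (p : Pl) : interior (Sq p) = OSq p := by
  apply subset_antisymm
  · intro x hx
    rw [mem_interior_iff_mem_nhds, Metric.mem_nhds_iff] at hx
    obtain ⟨ε, hε, hb⟩ := hx
    have key : ∀ a b : ℝ, |a| + |b| < ε → x + pt a b ∈ Sq p := by
      intro a b hab
      apply hb
      rw [Metric.mem_ball]
      refine lt_of_le_of_lt (dist_le_coords _ _) ?_
      simpa using hab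
    have hε2 : 0 < ε / 2 := by positivity
    have hab : |ε / 2| = ε / 2 := abs_of_pos hε2
    have h1 := key (ε / 2) 0 (by rw [hab]; simp; linarith)
    have h2 := key (-(ε / 2)) 0 (by rw [abs_neg, hab]; simp; linarith)
    have h3 := key 0 (ε / 2) (by rw [hab]; simp; linarith)
    have h4 := key 0 (-(ε / 2)) (by rw [abs_neg, hab]; simp; linarith)
    unfold Sq at h1 h2 h3 h4
    simp only [Set.mem_ofPred_eq, PiLp.add_apply, pt_zero, pt_one] at h1 h2 h3 h4
    exact ⟨⟨by linarith [h2.1.1], by linarith [h1.1.2]⟩, ⟨by linarith [h4.2.1], by linarith [h3.2.2]⟩⟩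
  · exact interior_maximal (OSq_sub p) (OSq_open p)

theorem OSq_nonempty (p : Pl) : (OSq p).Nonempty :=
  ⟨p + pt (1 / 2) (1 / 2), by
    unfold OSq
    simp only [Set.mem_ofPred_eq, PiLp.add_apply, pt_zero, pt_one]
    refine ⟨⟨?_, ?_⟩, ?_, ?_⟩ <;> linarith⟩

theorem Sq_regular (p : Pl) : closure (interior (Sq p)) = Sq p := by
  rw [(Sq_convex p).closure_interior_eq_closure_of_nonempty_interior, (Sq_closed p).closure_eq]
  rw [interior_Sq]
  exact OSq_nonempty p

theorem Sq_bounded (p : Pl) : Bornology.IsBounded (Sq p) := by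
  rw [Metric.isBounded_iff_subset_closedBall p]
  refine ⟨2, ?_⟩
  intro x hx
  rw [Metric.mem_closedBall]
  refine (dist_le_coords _ _).trans ?_
  have h1 : |x 0 - p 0| ≤ 1 := by rw [abs_le]; constructor <;> linarith [hx.1.1, hx.1.2]
  have h2 : |x 1 - p 1| ≤ 1 := by rw [abs_le]; constructor <;> linarith [hx.2.1, hx.2.2]
  linarith

theorem Sq_compact (p : Pl) : IsCompact (Sq p) :=
  Metric.isCompact_of_isClosed_isBounded (Sq_closed p) (Sq_bounded p)

theorem lip (p : Pl) (q : Fin 2) : LipschitzWith 1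
    (fun t : ℝ => p + (if q = 0 then pt t 0 else pt 0 t)) := by
  apply LipschitzWith.of_dist_le_mul
  intro s t
  refine (dist_le_coords _ _).trans ?_
  rw [Real.dist_eq]
  by_cases h : q = 0
  · simp [h]
  · simp [h]

theorem segment_measure (p : Pl) (q : Fin 2) : Measure.hausdorffMeasure 1
    ((fun t : ℝ => p + (if q = 0 then pt t 0 else pt 0 t)) '' Set.Icc 0 1) < ⊤ := by
  refine lt_of_le_of_lt ((lip p q).hausdorffMeasure_image_le zero_le_one _) ?_
  rw [hausdorffMeasure_real, Real.volume_Icc]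
  simp

theorem Sq_boundary (p : Pl) : Measure.hausdorffMeasure 1 (frontier (Sq p)) < ⊤ := by
  have hsub : frontier (Sq p) ⊆
      (((fun t : ℝ => p + (if (0 : Fin 2) = 0 then pt t 0 else pt 0 t)) '' Set.Icc 0 1) ∪
      ((fun t : ℝ => p + (if (1 : Fin 2) = 0 then pt t 0 else pt 0 t)) '' Set.Icc 0 1)) ∪
      (((fun t : ℝ => (p + pt 0 1) + (if (0 : Fin 2) = 0 then pt t 0 else pt 0 t)) '' Set.Icc 0 1) ∪
      ((fun t : ℝ => (p + pt 1 0) + (if (1 : Fin 2) = 0 then pt t 0 else pt 0 t)) ''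
        Set.Icc 0 1)) := by
    intro x hx
    rw [(Sq_closed p).frontier_eq, interior_Sq] at hx
    obtain ⟨⟨⟨a, b⟩, c, d⟩, hn⟩ := hx
    by_cases h1 : x 1 = p 1
    · left; left
      refine ⟨x 0 - p 0, ⟨by linarith, by linarith⟩, ?_⟩
      apply pl_ext <;> simp [h1]
    by_cases h2 : x 0 = p 0
    · left; right
      refine ⟨x 1 - p 1, ⟨by linarith, by linarith⟩, ?_⟩
      apply pl_ext <;> simp [h2]
    by_cases h3 : x 1 = p 1 + 1
    · right; left
      refine ⟨x 0 - p 0, ⟨by linarith, by linarith⟩, ?_⟩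
      apply pl_ext <;> simp [h3]
    by_cases h4 : x 0 = p 0 + 1
    · right; right
      refine ⟨x 1 - p 1, ⟨by linarith, by linarith⟩, ?_⟩
      apply pl_ext <;> simp [h4]
    exfalso
    apply hn
    exact ⟨⟨lt_of_le_of_ne a (Ne.symm h2), lt_of_le_of_ne b h4⟩,
      ⟨lt_of_le_of_ne c (Ne.symm h1), lt_of_le_of_ne d h3⟩⟩
  refine lt_of_le_of_lt (measure_mono hsub) ?_
  refine lt_of_le_of_lt (measure_union_le _ _) (ENNReal.add_lt_top.2 ⟨?_, ?_⟩)
  · exact lt_of_le_of_lt (measure_union_le _ _)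
      (ENNReal.add_lt_top.2 ⟨segment_measure p 0, segment_measure p 1⟩)
  · exact lt_of_le_of_lt (measure_union_le _ _)
      (ENNReal.add_lt_top.2 ⟨segment_measure _ 0, segment_measure _ 1⟩)

theorem Sq_volume (p : Pl) : volume (Sq p) = 1 := by
  have h : Sq p = (@WithLp.ofLp 2 (Fin 2 → ℝ)) ⁻¹' (Set.Icc ![p 0, p 1] ![p 0 + 1, p 1 + 1]) := by
    ext x
    unfold Sq
    rw [Set.mem_ofPred_eq, Set.mem_preimage, Set.mem_Icc, Pi.le_def, Pi.le_def, Fin.forall_fin_two,
      Fin.forall_fin_two]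
    simp
    tauto
  rw [h, (PiLp.volume_preserving_ofLp (Fin 2)).measure_preimage
    (measurableSet_Icc).nullMeasurableSet, Real.volume_Icc_pi]
  simp

theorem OSq_volume (p : Pl) : volume (OSq p) = 1 := by
  rw [← interior_Sq]
  have h := (Sq_convex p).addHaar_frontier volume
  rw [(Sq_closed p).frontier_eq] at h
  have h2 := measure_union_le (μ := volume) (Sq p \ interior (Sq p)) (interior (Sq p))
  rw [h, Set.sdiff_union_self, Set.union_eq_self_of_subset_right interior_subset, Sq_volume,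
    zero_add] at h2
  refine le_antisymm ?_ h2
  rw [← Sq_volume p]
  exact measure_mono interior_subset

end Pool.Agent.Helper42.Miek
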