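import Pool.Agent.Helper42.Miek.Rule

set_option autoImplicit false

open MeasureTheory

namespace Pool.Agent.Helper42.Miek

section

variable {s : ℤ} (hs : 0 < s)

/-- the tiling -/
noncomputable def Til (s : ℤ) : Set sqs.Tile :=
  {t | ∃ u : ℤ × ℤ, t = (enc s conf u.1 u.2, io u)}

theorem Til_tiling (s : ℤ) : sqs.IsTiling (Til s) := by
  refine ⟨?_, ?_⟩
  · apply nonoverlap_lattice _ (fun u => enc s conf u.1 u.2) 0
    rintro t ⟨u, rfl⟩
    exact ⟨u, by rw [zero_add]⟩
  · rw [Set.eq_univ_iff_forall]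
    intro x
    rw [Set.mem_iUnion₂]
    refine ⟨_, ⟨(⌊x 0⌋, ⌊x 1⌋), rfl⟩, ?_⟩
    rw [body_eq]
    have h1 := Int.floor_le (x 0)
    have h2 := Int.lt_floor_add_one (x 0)
    have h3 := Int.floor_le (x 1)
    have h4 := Int.lt_floor_add_one (x 1)
    exact ⟨⟨h1, h2.le⟩, h3, h4.le⟩

theorem Til_legal : (rule s hs).Legal (Til s) := by
  intro x
  set z0 : ℤ × ℤ := (⌊x 0⌋, ⌊x 1⌋) with hz0
  set c' : ℤ → ℤ → Lab := fun a b => enc s conf (a + z0.1) (b + z0.2) with hc'
  have hc'G : c' ∈ GG s := ⟨conf, conf_val, z0.1, z0.2, fun _ _ => rfl⟩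
  refine ⟨Win s c', ⟨c', hc'G, rfl⟩, {t | (t.1, t.2 + io z0) ∈ Til s ∧
    (sqs.body (t.1, t.2 + io z0) ∩ Metric.closedBall x (rule s hs).r).Nonempty}, ?_, io z0, ?_⟩
  · rintro ⟨l, y⟩ ⟨⟨u, hu⟩, hne⟩
    rw [Prod.mk.injEq] at hu
    obtain ⟨hu1, hu2⟩ := hu
    simp only at hu1 hu2
    rw [body_eq] at hne
    have hr : (rule s hs).r = 2 * (rho s : ℝ) := rfl
    obtain ⟨w, hw1, hw2⟩ := hne
    rw [hr, Metric.mem_closedBall] at hw2
    simp only at hw1
    rw [hu2] at hw1
    obtain ⟨⟨a1, a2⟩, a3, a4⟩ := hw1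
    rw [io_fst] at a1 a2
    rw [io_snd] at a3 a4
    have d0 := (dist_coord w x 0).trans hw2
    have d1 := (dist_coord w x 1).trans hw2
    rw [abs_le] at d0 d1
    have f1 := Int.floor_le (x 0)
    have f2 := Int.lt_floor_add_one (x 0)
    have f3 := Int.floor_le (x 1)
    have f4 := Int.lt_floor_add_one (x 1)
    refine ⟨u - z0, ⟨?_, ?_⟩, ?_⟩
    · have e1 : ((u.1 : ℤ) : ℝ) < ((⌊x 0⌋ + 2 * rho s + 2 : ℤ) : ℝ) := by push_cast; linarith
      have e2 : ((⌊x 0⌋ : ℤ) : ℝ) < ((u.1 + 2 * rho s + 2 : ℤ) : ℝ) := by push_cast; linarith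
      have e1' : u.1 < ⌊x 0⌋ + 2 * rho s + 2 := by exact_mod_cast e1
      have e2' : ⌊x 0⌋ < u.1 + 2 * rho s + 2 := by exact_mod_cast e2
      change |u.1 - ⌊x 0⌋| ≤ _
      rw [abs_le]
      constructor <;> omega
    · have e1 : ((u.2 : ℤ) : ℝ) < ((⌊x 1⌋ + 2 * rho s + 2 : ℤ) : ℝ) := by push_cast; linarith
      have e2 : ((⌊x 1⌋ : ℤ) : ℝ) < ((u.2 + 2 * rho s + 2 : ℤ) : ℝ) := by push_cast; linarith
      have e1' : u.2 < ⌊x 1⌋ + 2 * rho s + 2 := by exact_mod_cast e1
      have e2' : ⌊x 1⌋ < u.2 + 2 * rho s + 2 := by exact_mod_cast e2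
      change |u.2 - ⌊x 1⌋| ≤ _
      rw [abs_le]
      constructor <;> omega
    · apply Prod.ext
      · simp only [hu1, hc']
        simp
      · simp only
        rw [map_sub, ← hu2]
        abel
  · ext ⟨l, y⟩
    constructor
    · rintro ⟨h1, h2⟩
      refine ⟨(l, y - io z0), ⟨?_, ?_⟩, ?_⟩
      · simp only [sub_add_cancel]
        exact h1
      · simp only [sub_add_cancel]
        exact h2
      · simp only [sub_add_cancel]
    · rintro ⟨⟨l', y'⟩, ⟨h1, h2⟩, h3⟩
      rw [Prod.mk.injEq] at h3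
      obtain ⟨h3, h4⟩ := h3
      simp only at h1 h2 h3 h4
      subst h3
      subst h4
      exact ⟨h1, h2⟩

variable {hs}

theorem two_le_rho {s : ℤ} (hs : 0 < s) : 2 ≤ rho s := by
  unfold rho
  have := one_le_MM
  nlinarith

/-- positions of a legal tiling: neighbours -/
theorem pos_step {T : Set sqs.Tile} (hT : sqs.IsTiling T) (hL : (rule s hs).Legal T)
    {p : Pl} (hp : p ∈ Pos T) (e : ℤ × ℤ) (he : |e.1| + |e.2| ≤ 1) : p + io e ∈ Pos T := by
  have hcov : (p + io e) + pt (1 / 2) (1 / 2) ∈ ⋃ t ∈ T, sqs.body t := by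
    rw [hT.2]; exact Set.mem_univ _
  rw [Set.mem_iUnion₂] at hcov
  obtain ⟨σ, hσ, h1⟩ := hcov
  rw [body_eq] at h1
  obtain ⟨c, hc, h0, h2⟩ := legal_loc hL (lab_mem hp)
  have hr := two_le_rho hs
  have hr' : (2 : ℝ) ≤ rho s := by exact_mod_cast hr
  have he' : |(e.1 : ℝ)| + |(e.2 : ℝ)| ≤ 1 := by exact_mod_cast he
  obtain ⟨u, hu1, hu2⟩ := h2 σ hσ ⟨_, h1, by
    rw [Metric.mem_closedBall]
    refine (dist_le_coords _ _).trans ?_
    simp only [PiLp.add_apply, io_fst, io_snd, pt_zero, pt_one]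
    have e1 : p 0 + (e.1 : ℝ) + 1 / 2 - p 0 = e.1 + 1 / 2 := by ring
    have e2 : p 1 + (e.2 : ℝ) + 1 / 2 - p 1 = e.2 + 1 / 2 := by ring
    rw [e1, e2]
    have a1 := abs_add_le (e.1 : ℝ) (1 / 2)
    have a2 := abs_add_le (e.2 : ℝ) (1 / 2)
    have a3 : |(1 / 2 : ℝ)| = 1 / 2 := abs_of_pos (by norm_num)
    rw [a3] at a1 a2
    linarith⟩
  simp only at hu1
  rw [hu1] at h1
  obtain ⟨⟨a1, a2⟩, a3, a4⟩ := h1
  simp only [PiLp.add_apply, io_fst, io_snd, pt_zero, pt_one] at a1 a2 a3 a4
  have hu : u = e := by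
    have e1 : (u.1 : ℝ) < e.1 + 1 := by linarith
    have e2 : (e.1 : ℝ) < u.1 + 1 := by linarith
    have e3 : (u.2 : ℝ) < e.2 + 1 := by linarith
    have e4 : (e.2 : ℝ) < u.2 + 1 := by linarith
    have e1' : u.1 < e.1 + 1 := by exact_mod_cast e1
    have e2' : e.1 < u.1 + 1 := by exact_mod_cast e2
    have e3' : u.2 < e.2 + 1 := by exact_mod_cast e3
    have e4' : e.2 < u.2 + 1 := by exact_mod_cast e4
    exact Prod.ext (by omega) (by omega)
  subst hu
  rw [← hu1]
  exact ⟨σ.1, hσ⟩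

theorem pos_all {T : Set sqs.Tile} (hT : sqs.IsTiling T) (hL : (rule s hs).Legal T)
    {p : Pl} (hp : p ∈ Pos T) (u : ℤ × ℤ) : p + io u ∈ Pos T := by
  have hx : ∀ a : ℤ, ∀ q ∈ Pos T, q + io (a, 0) ∈ Pos T := by
    intro a q hq
    induction a using Int.induction_on with
    | zero =>
      have e : io (0, 0) = 0 := map_zero io
      rw [e, add_zero]; exact hq
    | succ n ih =>
      have := pos_step hT hL ih (1, 0) (by norm_num)
      rw [add_assoc, ← map_add] at this
      simpa using this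
    | pred n ih =>
      have := pos_step hT hL ih (-1, 0) (by norm_num)
      rw [add_assoc, ← map_add] at this
      simpa [sub_eq_add_neg] using this
  have hy : ∀ a : ℤ, ∀ q ∈ Pos T, q + io (0, a) ∈ Pos T := by
    intro a q hq
    induction a using Int.induction_on with
    | zero =>
      have e : io (0, 0) = 0 := map_zero io
      rw [e, add_zero]; exact hq
    | succ n ih =>
      have := pos_step hT hL ih (0, 1) (by norm_num)
      rw [add_assoc, ← map_add] at this
      simpa using this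
    | pred n ih =>
      have := pos_step hT hL ih (0, -1) (by norm_num)
      rw [add_assoc, ← map_add] at this
      simpa [sub_eq_add_neg] using this
  have h := hy u.2 _ (hx u.1 p hp)
  rw [add_assoc, ← map_add] at h
  simpa using h

theorem pos_only {T : Set sqs.Tile} (hT : sqs.IsTiling T) (hL : (rule s hs).Legal T)
    {p q : Pl} (hp : p ∈ Pos T) (hq : q ∈ Pos T) : ∃ u : ℤ × ℤ, q = p + io u := by
  -- the cell containing the centre of `q`
  set x := q + pt (1 / 2) (1 / 2) with hx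
  set u : ℤ × ℤ := (⌊x 0 - p 0⌋, ⌊x 1 - p 1⌋) with hu
  have hpu := pos_all hT hL hp u
  by_cases he : q = p + io u
  · exact ⟨u, he⟩
  · exfalso
    have hne : ((lab T q, q) : sqs.Tile) ≠ (lab T (p + io u), p + io u) := by
      intro h
      rw [Prod.mk.injEq] at h
      exact he h.2
    have h1 := hT.1 _ (lab_mem hq) _ (lab_mem hpu) hne
    rw [body_eq, body_eq, interior_Sq, interior_Sq] at h1
    have f1 := Int.floor_le (x 0 - p 0)
    have f2 := Int.lt_floor_add_one (x 0 - p 0)
    have f3 := Int.floor_le (x 1 - p 1)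
    have f4 := Int.lt_floor_add_one (x 1 - p 1)
    have hxq : x ∈ OSq q := by
      rw [hx]
      refine ⟨⟨?_, ?_⟩, ?_, ?_⟩ <;> simp <;> norm_num
    have hxc : x ∈ closure (OSq (p + io u)) := by
      rw [← interior_Sq, Sq_regular]
      refine ⟨⟨?_, ?_⟩, ?_, ?_⟩ <;> simp only [PiLp.add_apply, io_fst, io_snd, hu] <;> linarith
    rw [mem_closure_iff] at hxc
    obtain ⟨y, hy1, hy2⟩ := hxc _ (OSq_open q) hxq
    exact Set.disjoint_left.1 h1 hy1 hy2

/-- legal tilings have no period -/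
theorem no_period {T : Set sqs.Tile} (hT : sqs.IsTiling T) (hL : (rule s hs).Legal T)
    (v : Pl) (hv : v ≠ 0) : sqs.translate v T ≠ T := by
  intro hper
  have hloc := loc_of_legal hs hL
  have hMM := one_le_MM
  have hsM : s ≤ s * MM := k_le hs
  have hrho : rho s = 2 * (s * MM) := rfl
  -- `T` is nonempty
  obtain ⟨p0, hp0⟩ : (Pos T).Nonempty := by
    have h0 : (0 : Pl) ∈ ⋃ t ∈ T, sqs.body t := by rw [hT.2]; exact Set.mem_univ _
    rw [Set.mem_iUnion₂] at h0
    obtain ⟨t, ht, _⟩ := h0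
    exact ⟨t.2, t.1, ht⟩
  -- a marker
  obtain ⟨p1, hp1, hm1⟩ : ∃ p1 ∈ Pos T, lab T p1 = some none := by
    obtain ⟨c, ⟨t, ht, x0, y0, hc⟩, h0, h1⟩ := hloc p0 hp0
    have hKpos : 0 < s * MM := by positivity
    have m1 := Int.emod_nonneg x0 hKpos.ne'
    have m2 := Int.emod_lt_of_pos x0 hKpos
    have m3 := Int.emod_nonneg y0 hs.ne'
    have m4 := Int.emod_lt_of_pos y0 hs
    refine ⟨p0 + io (-(x0 % (s * MM)), -(y0 % s)), pos_all hT hL hp0 _, ?_⟩
    rw [h1 _ _ (by rw [abs_le]; constructor <;> omega) (by rw [abs_le]; constructor <;> omega)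
      (pos_all hT hL hp0 _), hc, enc_mark hs]
    constructor
    · rw [neg_add_eq_sub]
      exact Int.dvd_self_sub_emod
    · rw [neg_add_eq_sub]
      exact Int.dvd_self_sub_emod
  have hall : ∀ u, p1 + io u ∈ Pos T := pos_all hT hL hp1
  -- view from a marker
  have view : ∀ q ∈ Pos T, lab T q = some none → ∃ t, Val t ∧ ∀ a b : ℤ, |a| ≤ rho s →
      |b| ≤ rho s → lab T (q + io (a, b)) = enc s t a b := by
    intro q hq hq1
    obtain ⟨c, hc, h0, h1⟩ := hloc q hq
    rw [hq1] at h0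
    obtain ⟨t, ht, h2⟩ := GG_mark hs hc h0
    exact ⟨t, ht, fun a b ha hb => by rw [h1 a b ha hb (pos_all hT hL hq _), h2]⟩
  -- the lattice of markers
  have add_io : ∀ (a b c d : ℤ), p1 + io (a, b) + io (c, d) = p1 + io (a + c, b + d) := by
    intro a b c d
    rw [add_assoc, ← map_add]
    rfl
  have mark : ∀ i j : ℤ, lab T (p1 + io (s * MM * i, s * j)) = some none := by
    have hstep : ∀ i j i' j' : ℤ, |i' - i| ≤ 1 → |j' - j| ≤ 1 →
        lab T (p1 + io (s * MM * i, s * j)) = some none →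
        lab T (p1 + io (s * MM * i', s * j')) = some none := by
      intro i j i' j' hi hj h
      obtain ⟨t, ht, h1⟩ := view _ (hall _) h
      have e : p1 + io (s * MM * i', s * j') =
          p1 + io (s * MM * i, s * j) + io (s * MM * (i' - i), s * (j' - j)) := by
        rw [add_io]
        congr 3 <;> ring
      have b1 : |s * MM * (i' - i)| ≤ rho s := by
        rw [abs_mul, abs_of_pos (by positivity : 0 < s * MM), hrho]
        nlinarith [abs_nonneg (i' - i)]
      have b2 : |s * (j' - j)| ≤ rho s := by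
        rw [abs_mul, abs_of_pos hs, hrho]
        nlinarith [abs_nonneg (j' - j)]
      rw [e, h1 _ _ b1 b2, enc_mark hs]
      exact ⟨dvd_mul_right _ _, dvd_mul_right _ _⟩
    have hrow : ∀ i : ℤ, lab T (p1 + io (s * MM * i, s * 0)) = some none := by
      intro i
      induction i using Int.induction_on with
      | zero =>
        have e : io (s * MM * 0, s * 0) = 0 := by
          rw [mul_zero, mul_zero]; exact map_zero io
        rw [e, add_zero]
        exact hm1
      | succ n ih => exact hstep _ _ _ _ (by rw [abs_le]; omega) (by norm_num) ih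
      | pred n ih => exact hstep _ _ _ _ (by rw [abs_le]; omega) (by norm_num) ih
    intro i j
    induction j using Int.induction_on with
    | zero => exact hrow i
    | succ n ih => exact hstep _ _ _ _ (by norm_num) (by rw [abs_le]; omega) ih
    | pred n ih => exact hstep _ _ _ _ (by norm_num) (by rw [abs_le]; omega) ih
  have hview : ∀ i j : ℤ, ∃ t, Val t ∧ ∀ a b : ℤ, |a| ≤ rho s → |b| ≤ rho s →
      lab T (p1 + io (s * MM * i + a, s * j + b)) = enc s t a b := by
    intro i j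
    obtain ⟨t, ht, h1⟩ := view _ (hall _) (mark i j)
    refine ⟨t, ht, ?_⟩
    intro a b ha hb
    rw [← h1 a b ha hb, add_io]
  choose t htV ht using hview
  -- letters
  have enc_letter : ∀ (t' : ℤ → ℤ → W) (i j : ℤ), 0 ≤ i → enc s t' (s * MM * i + s) (s * j) =
      some (some (t' i j)) := by
    intro t' i j _
    have e : s * MM * i + s = s * (1 + MM * i) := by ring
    rw [e, enc_mul hs]
    unfold cc
    rw [Int.add_mul_emod_self_left, Int.add_mul_ediv_left _ _ (by omega)]
    have hM1 : 1 < MM := by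
      unfold MM
      have := mm_pos
      omega
    rw [Int.emod_eq_of_lt (by norm_num) hM1, Int.ediv_eq_zero_of_lt (by norm_num) hM1]
    rw [if_neg (by norm_num), sub_self, rot_zero, zero_add]
  have let0 : ∀ i j : ℤ, lab T (p1 + io (s * MM * i + s, s * j)) = some (some (t i j 0 0)) := by
    intro i j
    have h1 := ht i j s 0 (by rw [abs_of_pos hs, hrho]; omega)
      (by rw [abs_zero, hrho]; omega)
    rw [add_zero] at h1
    rw [h1]
    have h2 := enc_letter (t i j) 0 0 le_rfl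
    simpa using h2
  have hVal : Val (fun i j => t i j 0 0) := by
    intro i j
    constructor
    · have h1 := ht i j (s * MM + s) 0 (by rw [abs_of_pos (by positivity), hrho]; omega)
        (by rw [abs_zero, hrho]; omega)
      have h2 := enc_letter (t i j) 1 0 (by norm_num)
      rw [mul_one, mul_zero] at h2
      rw [h2, add_zero] at h1
      have h3 := let0 (i + 1) j
      have e : s * MM * (i + 1) + s = s * MM * i + (s * MM + s) := by ring
      rw [e, h1] at h3
      have h4 : t i j 1 0 = t (i + 1) j 0 0 := Option.some.inj (Option.some.inj h3)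
      simp only
      rw [← h4]
      exact (htV i j 0 0).1
    · have h1 := ht i j s s (by rw [abs_of_pos hs, hrho]; omega)
        (by rw [abs_of_pos hs, hrho]; omega)
      have h2 := enc_letter (t i j) 0 1 (by norm_num)
      rw [mul_one, mul_zero, zero_add] at h2
      rw [h2] at h1
      have h3 := let0 i (j + 1)
      have e : s * (j + 1) = s * j + s := by ring
      rw [e, h1] at h3
      have h4 : t i j 0 1 = t i (j + 1) 0 0 := Option.some.inj (Option.some.inj h3)
      simp only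
      rw [← h4]
      exact (htV i j 0 0).2
  -- the period
  have hshift : ∀ q ∈ Pos T, q + v ∈ Pos T ∧ lab T (q + v) = lab T q := by
    intro q hq
    have h0 : ((lab T q, q + v) : sqs.Tile) ∈ sqs.translate v T :=
      ⟨(lab T q, q), lab_mem hq, rfl⟩
    have h1 : ((lab T q, q + v) : sqs.Tile) ∈ T := by
      rw [hper] at h0
      exact h0
    exact ⟨⟨_, h1⟩, lab_unique hs hL h1⟩
  obtain ⟨hv1, hv2⟩ := hshift p1 hp1
  obtain ⟨w, hw⟩ := pos_only hT hL hp1 hv1
  have hvw : v = io w := add_left_cancel hw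
  rw [hvw, hm1] at hv2
  set i0 := w.1 / (s * MM) with hi0
  set j0 := w.2 / s with hj0
  have hKpos : 0 < s * MM := by positivity
  have m1 := Int.emod_nonneg w.1 hKpos.ne'
  have m2 := Int.emod_lt_of_pos w.1 hKpos
  have m3 := Int.emod_nonneg w.2 hs.ne'
  have m4 := Int.emod_lt_of_pos w.2 hs
  have d1 := Int.mul_ediv_add_emod w.1 (s * MM)
  have d2 := Int.mul_ediv_add_emod w.2 s
  have h5 := ht i0 j0 (w.1 % (s * MM)) (w.2 % s) (by rw [abs_of_nonneg m1, hrho]; omega)
    (by rw [abs_of_nonneg m3, hrho]; omega)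
  rw [d1, d2] at h5
  have h6 : enc s (t i0 j0) (w.1 % (s * MM)) (w.2 % s) = some none := by
    rw [← h5]; exact hv2
  rw [enc_mark hs] at h6
  have h7 : w.1 % (s * MM) = 0 := Int.eq_zero_of_abs_lt_dvd h6.1 (by rw [abs_of_nonneg m1]; exact m2)
  have h8 : w.2 % s = 0 := Int.eq_zero_of_abs_lt_dvd h6.2 (by rw [abs_of_nonneg m3]; exact m4)
  have hw1 : w.1 = s * MM * i0 := by
    rw [h7, add_zero] at d1
    exact d1.symm
  have hw2 : w.2 = s * j0 := by
    rw [h8, add_zero] at d2
    exact d2.symm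
  have hperiod : ∀ i j : ℤ, t (i + i0) (j + j0) 0 0 = t i j 0 0 := by
    intro i j
    have h9 := (hshift _ (hall (s * MM * i + s, s * j))).2
    rw [let0 i j, hvw] at h9
    have e : p1 + io (s * MM * i + s, s * j) + io w =
        p1 + io (s * MM * (i + i0) + s, s * (j + j0)) := by
      have : w = (s * MM * i0, s * j0) := Prod.ext hw1 hw2
      rw [this, add_io]
      congr 3 <;> ring
    rw [e, let0] at h9
    exact Option.some.inj (Option.some.inj h9)
  obtain ⟨h10, h11⟩ := hVal.aperiodic hperiod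
  apply hv
  rw [hvw]
  have : w = 0 := Prod.ext (by rw [hw1, h10, mul_zero]; rfl) (by rw [hw2, h11, mul_zero]; rfl)
  rw [this, map_zero]

end

end Pool.Agent.Helper42.Miek
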